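import Mathlib

set_option autoImplicit false
open Polynomial Finset

namespace Pool.Agent.MP_dcfa1b_co

variable {F : Type*} [Field F]

lemma coeff_itdivX (φ : F[X]) (m j : ℕ) : (divX^[m] φ).coeff j = φ.coeff (j + m) := by
  induction m generalizing j with
  | zero => simp
  | succ m ih =>
    rw [Function.iterate_succ_apply', coeff_divX, ih]
    congr 1
    ring

lemma natDegree_itdivX (φ : F[X]) (m : ℕ) : (divX^[m] φ).natDegree = φ.natDegree - m := by
  induction m with
  | zero => simp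
  | succ m ih =>
    rw [Function.iterate_succ_apply', natDegree_divX_eq_natDegree_tsub_one, ih]
    omega

lemma horner_aux (φ : F[X]) (x : F) (m : ℕ) :
    (X - C x) * ∑ i ∈ range m, divX^[i + 1] φ * C (x ^ i) =
      φ - C (∑ i ∈ range m, φ.coeff i * x ^ i) - divX^[m] φ * C (x ^ m) := by
  induction m with
  | zero => simp
  | succ m ih =>
    rw [sum_range_succ, mul_add, ih, sum_range_succ]
    have h1 := X_mul_divX_add (divX^[m] φ)
    rw [coeff_itdivX, zero_add, ← Function.iterate_succ_apply' divX m φ] at h1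
    simp only [C_add, C_mul, pow_succ] at h1 ⊢
    rw [← h1]
    simp only [Nat.succ_eq_add_one]
    ring

lemma horner (φ : F[X]) (x : F) (d : ℕ) (hd : φ.natDegree = d) :
    (X - C x) * ∑ i : Fin d, divX^[(i : ℕ) + 1] φ * C (x ^ (i : ℕ)) = φ - C (φ.eval x) := by
  rw [Fin.sum_univ_eq_sum_range (fun i => divX^[i + 1] φ * C (x ^ i)), horner_aux]
  have h1 : divX^[d] φ = C (φ.coeff d) := by
    have : (divX^[d] φ).natDegree ≤ 0 := by rw [natDegree_itdivX]; omega
    rw [eq_C_of_natDegree_le_zero this, coeff_itdivX, zero_add]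
  rw [h1, eval_eq_sum_range, hd, sum_range_succ]
  simp only [C_add, C_mul]
  ring

lemma geo (φ : F[X]) (y : F) (hy : y ≠ 0) (K : ℕ) :
    (φ - C y) * ∑ n ∈ range K, C (y⁻¹ ^ (n + 1)) * φ ^ n = C (y⁻¹ ^ K) * φ ^ K - 1 := by
  have h1 : C y * C y⁻¹ = (1 : F[X]) := by rw [← C_mul, mul_inv_cancel₀ hy, C_1]
  induction K with
  | zero => simp
  | succ K ih =>
    rw [sum_range_succ, mul_add, ih]
    simp only [pow_succ, C_mul]
    linear_combination (-(C (y⁻¹ ^ K) * φ ^ K)) * h1

variable [Fintype F] [DecidableEq F]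

/-- `∑_{x ≠ 1} x^j / φ(x)^k` -/
noncomputable def lam (φ : F[X]) (j k : ℕ) : F := ∑ x ∈ univ.erase (1 : F), x ^ j * (φ.eval x)⁻¹ ^ k

noncomputable def Sser (φ : F[X]) (K i : ℕ) : F[X] := ∑ n ∈ range K, monomial n (lam φ i (n + 1))

noncomputable def Gp (φ : F[X]) (d K : ℕ) : F[X] :=
  ∑ i : Fin d, divX^[(i : ℕ) + 1] φ * (Sser φ K i).comp φ

lemma sum_shift_pow (m : ℕ) (hm : m < Fintype.card F - 1) :
    ∑ x ∈ univ.erase (1 : F), (x - 1) ^ m = if m = 0 then -1 else 0 := by
  have h1 : ∑ x : F, (x - 1) ^ m = 0 := by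
    rw [← FiniteField.sum_pow_lt_card_sub_one F m hm]
    exact Equiv.sum_comp (Equiv.subRight (1 : F)) (fun y => y ^ m)
  rw [← add_sum_erase _ _ (mem_univ (1 : F))] at h1
  split_ifs with h
  · subst h
    simp only [pow_zero] at h1 ⊢
    linear_combination h1
  · rw [sub_self, zero_pow h, zero_add] at h1
    exact h1

lemma G_ident (φ : F[X]) (d K : ℕ) (hd : φ.natDegree = d) (hne : ∀ x, x ≠ 1 → φ.eval x ≠ 0) :
    ∃ H, Gp φ d K * ((X - C 1) ^ (Fintype.card F - 1) - 1) =
      φ ^ K * H + (X - C 1) ^ (Fintype.card F - 2) := by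
  set q := Fintype.card F with hq
  have hq2 : 2 ≤ q := Fintype.one_lt_card
  let Om : F → F[X] := fun x => ∑ m ∈ range (q - 1), (X - C 1) ^ m * C (x - 1) ^ (q - 1 - 1 - m)
  have hOm : ∀ x ∈ univ.erase (1 : F), Om x * (X - C x) = (X - C 1) ^ (q - 1) - 1 := by
    intro x hx
    have h1 := geom_sum₂_mul (X - C (1 : F)) (C (x - 1)) (q - 1)
    have h2 : (x - 1) ^ (q - 1) = 1 :=
      FiniteField.pow_card_sub_one_eq_one _ (sub_ne_zero.2 (mem_erase.1 hx).1)
    rw [← C_pow, h2] at h1
    simp only [Om, C_sub, C_1] at h1 ⊢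
    rw [← h1]
    ring
  have hsum : ∑ x ∈ univ.erase (1 : F), Om x = -(X - C 1) ^ (q - 2) := by
    simp only [Om]
    rw [sum_comm]
    simp only [← mul_sum, ← C_pow, ← map_sum]
    rw [sum_eq_single (q - 2)]
    · rw [sum_shift_pow _ (by omega), if_pos (by omega)]
      simp
    · intro m hm hne
      have := mem_range.1 hm
      rw [sum_shift_pow _ (by omega), if_neg (by omega)]
      simp
    · intro h
      exact absurd (mem_range.2 (by omega)) h
  have hG : Gp φ d K = ∑ x ∈ univ.erase (1 : F),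
      (∑ i : Fin d, divX^[(i : ℕ) + 1] φ * C (x ^ (i : ℕ))) *
        ∑ n ∈ range K, C ((φ.eval x)⁻¹ ^ (n + 1)) * φ ^ n := by
    simp only [Gp, Sser, Polynomial.sum_comp, monomial_comp]
    simp only [lam, sum_mul, map_sum, mul_sum]
    rw [sum_comm (s := univ.erase (1 : F))]
    rw [sum_comm]
    refine sum_congr rfl (fun n _ => ?_)
    rw [sum_comm]
    refine sum_congr rfl (fun x _ => sum_congr rfl (fun i _ => ?_))
    simp only [C_mul]
    ring
  refine ⟨∑ x ∈ univ.erase (1 : F), C ((φ.eval x)⁻¹ ^ K) * Om x, ?_⟩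
  rw [hG, sum_mul, mul_sum, ← neg_neg ((X - C (1 : F)) ^ (q - 2)), ← hsum, ← sub_eq_add_neg,
    ← sum_sub_distrib]
  refine sum_congr rfl (fun x hx => ?_)
  rw [← hOm x hx]
  have h1 := horner φ x d hd
  have h2 := geo φ _ (hne x (mem_erase.1 hx).1) K
  rw [← h1] at h2
  linear_combination Om x * h2

omit [Fintype F] [DecidableEq F] in
lemma coeff_one_add_pow (Y : F[X]) (j l : ℕ) (h : ∀ m, l < m → (Y ^ m).coeff j = 0) (k : ℕ) :
    ((Y + 1) ^ k).coeff j = ∑ m ∈ range (l + 1), (k.choose m : F) * (Y ^ m).coeff j := by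
  rw [add_pow, finset_sum_coeff]
  simp only [one_pow, mul_one, coeff_mul_natCast]
  have a1 : ∑ m ∈ range (k + 1), (Y ^ m).coeff j * (k.choose m : F) =
      ∑ m ∈ range (k + 1 + (l + 1)), (Y ^ m).coeff j * (k.choose m : F) := by
    apply sum_subset (range_subset_range.2 (by omega))
    intro m _ hm
    rw [Nat.choose_eq_zero_of_lt (by simpa using hm)]
    simp
  have a2 : ∑ m ∈ range (l + 1), (k.choose m : F) * (Y ^ m).coeff j =
      ∑ m ∈ range (k + 1 + (l + 1)), (k.choose m : F) * (Y ^ m).coeff j := by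
    apply sum_subset (range_subset_range.2 (by omega))
    intro m _ hm
    rw [h m (by simpa using hm)]
    simp
  rw [a1, a2]
  exact sum_congr rfl (fun m _ => mul_comm _ _)

omit [Fintype F] in
lemma bad_card (ψ : F[X]) (s l p : ℕ) [CharP F p] (hp : p.Prime) (hs : 1 ≤ s) (hψ : ψ.coeff 0 ≠ 0)
    (hl : l < p) :
    ((range p).filter (fun k => ((X ^ s * ψ + 1) ^ k).coeff (s * l) = 0)).card ≤ l := by
  have hfac : ∀ m, m ≤ l → ((m.factorial : ℕ) : F) ≠ 0 := by
    intro m hm h0
    rw [CharP.cast_eq_zero_iff F p, hp.dvd_factorial] at h0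
    omega
  let a : ℕ → F := fun m => ((X ^ s * ψ) ^ m).coeff (s * l)
  have hz : ∀ m, l < m → ((X ^ s * ψ) ^ m).coeff (s * l) = 0 := by
    intro m hm
    rw [mul_pow, ← pow_mul, coeff_X_pow_mul', if_neg]
    have : s * l < s * m := Nat.mul_lt_mul_of_pos_left hm hs
    omega
  have hal : a l ≠ 0 := by
    simp only [a]
    rw [mul_pow, ← pow_mul, coeff_X_pow_mul', if_pos le_rfl, Nat.sub_self, coeff_zero_eq_eval_zero,
      eval_pow, ← coeff_zero_eq_eval_zero]
    exact pow_ne_zero _ hψ
  let Q : F[X] := ∑ m ∈ range (l + 1), C (a m / (m.factorial : F)) * descPochhammer F m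
  have hQd : Q.natDegree ≤ l := by
    refine natDegree_sum_le_of_forall_le _ _ (fun m hm => (natDegree_C_mul_le _ _).trans ?_)
    rw [descPochhammer_natDegree]
    have := mem_range.1 hm
    omega
  have hQ0 : Q ≠ 0 := by
    intro h0
    have h1 := congrArg (fun P => coeff P l) h0
    simp only [Q, finset_sum_coeff, coeff_C_mul, coeff_zero] at h1
    rw [sum_eq_single l] at h1
    · have h2 : (descPochhammer F l).coeff l = 1 := by
        have := (monic_descPochhammer F l).coeff_natDegree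
        rwa [descPochhammer_natDegree] at this
      rw [h2, mul_one] at h1
      exact div_ne_zero hal (hfac l le_rfl) h1
    · intro m hm hne
      have := mem_range.1 hm
      rw [coeff_eq_zero_of_natDegree_lt (by rw [descPochhammer_natDegree]; omega), mul_zero]
    · intro h; exact absurd (mem_range.2 (by omega)) h
  have hev : ∀ k : ℕ, Q.eval (k : F) = ((X ^ s * ψ + 1) ^ k).coeff (s * l) := by
    intro k
    rw [coeff_one_add_pow _ _ l hz]
    simp only [Q, eval_finset_sum, eval_mul, eval_C, descPochhammer_eval_eq_descFactorial]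
    refine sum_congr rfl (fun m hm => ?_)
    have := hfac m (by have := mem_range.1 hm; omega)
    rw [Nat.descFactorial_eq_factorial_mul_choose]
    push_cast
    simp only [a]
    field_simp
  refine le_trans ?_ ((Multiset.toFinset_card_le Q.roots).trans ((card_roots' Q).trans hQd))
  refine card_le_card_of_injOn (fun k : ℕ => (k : F)) ?_ ?_
  · intro k hk
    simp only [coe_filter, mem_range, Set.mem_setOf_eq] at hk
    simp only [mem_coe, Multiset.mem_toFinset]
    rw [mem_roots hQ0, IsRoot, hev]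
    exact hk.2
  · intro k hk k' hk' h
    simp only [coe_filter, mem_range, Set.mem_setOf_eq] at hk hk'
    exact CharP.natCast_injOn_Iio F p hk.1 hk'.1 h

end Pool.Agent.MP_dcfa1b_co
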