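import Mathlib

set_option autoImplicit false
open Polynomial Finset

namespace Pool.Agent.MP_dcfa1b_co

lemma indep_closed {K : Type*} [Field K] [IsAlgClosed K] (φ : K[X]) (d s : ℕ)
    (hd : φ.natDegree = d) (hs : 1 ≤ s) (hder : derivative φ ≠ 0)
    (v : Fin d → K[X]) (hv : v ≠ 0) (h : ∑ l, (v l).comp φ * X ^ (s * (l : ℕ)) = 0) :
    ∃ o, 1 < o ∧ ∀ i, φ.coeff i ≠ 0 → o ∣ i := by
  classical
  by_contra hno
  obtain ⟨l0, hl0⟩ : ∃ l0, v l0 ≠ 0 := by
    by_contra hc
    push Not at hc
    exact hv (funext hc)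
  have hd1 : 1 ≤ d := l0.pos
  let Z : Finset K := ((nthRoots s (1 : K)).toFinset).erase 1
  have hZ : ∀ ζ ∈ Z, φ.comp (C ζ * X) - φ ≠ 0 := by
    intro ζ hζ h0
    obtain ⟨h1, h2⟩ := mem_erase.1 hζ
    rw [Multiset.mem_toFinset, mem_nthRoots hs] at h2
    apply hno
    have hfin : IsOfFinOrder ζ := isOfFinOrder_iff_pow_eq_one.2 ⟨s, hs, h2⟩
    refine ⟨orderOf ζ, ?_, fun i hi => ?_⟩
    · have a1 := hfin.orderOf_pos
      have a2 : orderOf ζ ≠ 1 := fun hh => h1 (orderOf_eq_one_iff.1 hh)
      omega
    · have a3 := congrArg (fun P => coeff P i) h0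
      simp only [coeff_sub, comp_C_mul_X_coeff, coeff_zero] at a3
      apply orderOf_dvd_of_pow_eq_one
      have : φ.coeff i * (ζ ^ i - 1) = 0 := by linear_combination a3
      exact sub_eq_zero.1 ((mul_eq_zero.1 this).resolve_left hi)
  let W : K[X] := derivative φ * ∏ ζ ∈ Z, (φ.comp (C ζ * X) - φ)
  have hW : W ≠ 0 := mul_ne_zero hder (prod_ne_zero_iff.2 hZ)
  obtain ⟨t, ht⟩ := Infinite.exists_notMem_finset
    (W.roots.toFinset.image (fun z => φ.eval z) ∪ (v l0).roots.toFinset)
  rw [mem_union, not_or] at ht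
  have ht1 : ∀ z, φ.eval z = t → W.eval z ≠ 0 := by
    intro z hz h0
    exact ht.1 (mem_image.2 ⟨z, Multiset.mem_toFinset.2 ((mem_roots hW).2 h0), hz⟩)
  have ht2 : (v l0).eval t ≠ 0 := fun h0 =>
    ht.2 (Multiset.mem_toFinset.2 ((mem_roots hl0).2 h0))
  let Ψ : K[X] := φ - C t
  have hΨd : Ψ.natDegree = d := by simp only [Ψ]; rw [natDegree_sub_C, hd]
  have hΨ0 : Ψ ≠ 0 := by intro h0; rw [h0] at hΨd; simp at hΨd; omega
  have hroot : ∀ z, Ψ.IsRoot z → φ.eval z = t := by
    intro z hz
    simp only [Ψ, IsRoot, eval_sub, eval_C] at hz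
    exact sub_eq_zero.1 hz
  have hnd : Ψ.roots.Nodup := by
    rw [Multiset.nodup_iff_count_le_one]
    intro z
    rw [count_roots]
    by_contra hc
    push Not at hc
    have := (one_lt_rootMultiplicity_iff_isRoot hΨ0).1 hc
    apply ht1 z (hroot z this.1)
    have h2 := this.2
    simp only [Ψ, derivative_sub, derivative_C, sub_zero, IsRoot] at h2
    simp [W, h2]
  have hcard : Ψ.roots.toFinset.card = d := by
    rw [Multiset.toFinset_card_of_nodup hnd, IsAlgClosed.card_roots_eq_natDegree, hΨd]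
  let H : K[X] := ∑ l : Fin d, monomial (l : ℕ) ((v l).eval t)
  have hH0 : H ≠ 0 := by
    intro h0
    have := congrArg (fun P => coeff P l0) h0
    simp only [H, finset_sum_coeff, coeff_monomial, coeff_zero] at this
    rw [sum_eq_single l0] at this
    · simp at this; exact ht2 this
    · intro b _ hb
      rw [if_neg]
      exact fun hh => hb (Fin.ext hh)
    · simp
  have hHd : H.natDegree ≤ d - 1 := by
    refine natDegree_sum_le_of_forall_le _ _ (fun l _ => (natDegree_monomial_le _).trans ?_)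
    have := l.2
    omega
  have hHc : H.roots.toFinset.card < Ψ.roots.toFinset.card := by
    have a1 := Multiset.toFinset_card_le H.roots
    have a2 := card_roots' H
    omega
  obtain ⟨z, hz, z', hz', hne, heq⟩ := exists_ne_map_eq_of_card_lt_of_maps_to hHc
    (f := fun z => z ^ s) (by
      intro z hz
      simp only [mem_coe, Multiset.mem_toFinset] at hz ⊢
      have hzt := hroot z ((mem_roots hΨ0).1 hz)
      rw [mem_roots hH0]
      have := congrArg (fun P => eval z P) h
      simp only [eval_finset_sum, eval_mul, eval_comp, eval_pow, eval_X, eval_zero, hzt] at this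
      simp only [H, IsRoot, eval_finset_sum, eval_monomial, ← pow_mul]
      exact this)
  have hzt := hroot z ((mem_roots hΨ0).1 (Multiset.mem_toFinset.1 hz))
  have hzt' := hroot z' ((mem_roots hΨ0).1 (Multiset.mem_toFinset.1 hz'))
  have hz0 : z ≠ 0 := by
    rintro rfl
    rw [zero_pow (by omega)] at heq
    exact hne (pow_eq_zero_iff (by omega) |>.1 heq.symm).symm
  have hζ : z' / z ∈ Z := by
    refine mem_erase.2 ⟨fun hh => hne ((div_eq_one_iff_eq hz0).1 hh).symm, ?_⟩
    rw [Multiset.mem_toFinset, mem_nthRoots hs, div_pow]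
    rw [← heq]
    exact div_self (pow_ne_zero _ hz0)
  apply ht1 z hzt
  simp only [W, eval_mul, eval_prod]
  rw [prod_eq_zero hζ, mul_zero]
  simp only [eval_sub, eval_comp, eval_mul, eval_C, eval_X]
  rw [div_mul_cancel₀ _ hz0, hzt, hzt', sub_self]

lemma indep {F : Type*} [Field F] (φ : F[X]) (d s : ℕ)
    (hd : φ.natDegree = d) (hs : 1 ≤ s) (hder : derivative φ ≠ 0)
    (v : Fin d → F[X]) (hv : v ≠ 0) (h : ∑ l, (v l).comp φ * X ^ (s * (l : ℕ)) = 0) :
    ∃ o, 1 < o ∧ ∀ i, φ.coeff i ≠ 0 → o ∣ i := by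
  let ι := algebraMap F (AlgebraicClosure F)
  have hι : Function.Injective ι := ι.injective
  obtain ⟨o, ho, h2⟩ := indep_closed (φ.map ι) d s (by rw [natDegree_map, hd]) hs
    (by rw [derivative_map]; exact (Polynomial.map_ne_zero_iff hι).2 hder)
    (fun l => (v l).map ι)
    (by
      intro h0
      apply hv
      funext l
      exact (Polynomial.map_eq_zero_iff hι).1 (congrFun h0 l))
    (by
      have := congrArg (Polynomial.map ι) h
      simpa [Polynomial.map_sum, map_comp] using this)
  refine ⟨o, ho, fun i hi => h2 i ?_⟩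
  rw [coeff_map]
  exact (map_ne_zero_iff ι hι).2 hi

/-- digits of a polynomial in base `φ` -/
lemma digits {F : Type*} [Field F] (φ : F[X]) (d : ℕ) (hd : φ.natDegree = d) (hd1 : 1 ≤ d) (m : ℕ) :
    ∀ P : F[X], P.natDegree < d * (m + 1) →
      ∃ E : Fin d → F[X], (∀ i, (E i).natDegree ≤ m) ∧ P = ∑ i, (E i).comp φ * X ^ (i : ℕ) := by
  have hφ0 : φ ≠ 0 := by rintro rfl; simp at hd; omega
  have base : ∀ P : F[X], P.natDegree < d → P = ∑ i : Fin d, C (P.coeff i) * X ^ (i : ℕ) := by
    intro P hP
    conv_lhs => rw [P.as_sum_range' d hP]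
    rw [Fin.sum_univ_eq_sum_range (fun i => C (P.coeff i) * X ^ i)]
    simp only [C_mul_X_pow_eq_monomial]
  induction m with
  | zero =>
    intro P hP
    refine ⟨fun i => C (P.coeff i), fun i => by simp, ?_⟩
    simp only [C_comp]
    exact base P (by simpa using hP)
  | succ m ih =>
    intro P hP
    have h1 : (P / φ).natDegree < d * (m + 1) := by
      by_cases h0 : P / φ = 0
      · rw [h0]; simp; omega
      · have a1 := EuclideanDomain.div_add_mod P φ
        have a2 : (P % φ).degree < φ.degree := degree_mod_lt _ hφ0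
        have a3 : (P % φ).degree < (φ * (P / φ)).degree := by
          refine a2.trans_le ?_
          exact degree_le_mul_left _ h0
        have a4 : P.natDegree = (φ * (P / φ)).natDegree := by
          conv_lhs => rw [← a1]
          exact natDegree_add_eq_left_of_degree_lt a3
        rw [natDegree_mul hφ0 h0, hd] at a4
        have : d * (m + 1 + 1) = d * (m + 1) + d := by ring
        omega
    obtain ⟨E, hE, hE2⟩ := ih _ h1
    have h2 : (P % φ).natDegree < d := by
      by_cases h0 : P % φ = 0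
      · rw [h0]; simp; omega
      · rw [← hd]; exact natDegree_lt_natDegree h0 (degree_mod_lt _ hφ0)
    refine ⟨fun i => X * E i + C ((P % φ).coeff i), fun i => ?_, ?_⟩
    · rw [natDegree_add_C]
      refine natDegree_mul_le.trans ?_
      have := hE i
      have := natDegree_X_le (R := F)
      omega
    · simp only [add_comp, mul_comp, X_comp, C_comp, add_mul, sum_add_distrib]
      rw [← base _ h2]
      simp only [mul_assoc, ← mul_sum]
      rw [← hE2, EuclideanDomain.div_add_mod]

end Pool.Agent.MP_dcfa1b_co
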