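import Mathlib

set_option autoImplicit false
open Polynomial Finset

namespace Pool.Agent.MP_dcfa1b_co

variable {F : Type*} [Field F]

lemma prod_top {ι : Type*} (s : Finset ι) (f : ι → F[X]) (a : ι → ℕ)
    (h : ∀ i ∈ s, (f i).natDegree ≤ a i) :
    (∏ i ∈ s, f i).natDegree ≤ ∑ i ∈ s, a i ∧
    (∏ i ∈ s, f i).coeff (∑ i ∈ s, a i) = ∏ i ∈ s, (f i).coeff (a i) := by
  classical
  induction s using Finset.induction_on with
  | empty => simp
  | insert j s hj ih =>
    have h1 := ih (fun i hi => h i (mem_insert_of_mem hi))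
    have h2 := h j (mem_insert_self _ _)
    rw [prod_insert hj, sum_insert hj, prod_insert hj]
    refine ⟨natDegree_mul_le.trans (Nat.add_le_add h2 h1.1), ?_⟩
    rw [coeff_mul_add_eq_of_natDegree_le h2 h1.1, h1.2]

lemma det_top {ι : Type*} [Fintype ι] [DecidableEq ι] (M : Matrix ι ι F[X]) (a b : ι → ℕ)
    (h : ∀ i j, (M i j).natDegree ≤ a i + b j) :
    M.det.natDegree ≤ ∑ i, a i + ∑ j, b j ∧
    M.det.coeff (∑ i, a i + ∑ j, b j) = (Matrix.of fun i j => (M i j).coeff (a i + b j)).det := by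
  have key : ∀ σ : Equiv.Perm ι, (∏ i, M (σ i) i).natDegree ≤ ∑ i, a i + ∑ j, b j ∧
      (∏ i, M (σ i) i).coeff (∑ i, a i + ∑ j, b j) = ∏ i, (M (σ i) i).coeff (a (σ i) + b i) := by
    intro σ
    have := prod_top univ (fun i => M (σ i) i) (fun i => a (σ i) + b i) (fun i _ => h _ _)
    rw [sum_add_distrib, Equiv.sum_comp σ a] at this
    exact this
  rw [Matrix.det_apply, Matrix.det_apply]
  constructor
  · refine natDegree_sum_le_of_forall_le _ _ (fun σ _ => ?_)
    rw [Units.smul_def]
    exact (natDegree_smul_le _ _).trans (key σ).1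
  · rw [finset_sum_coeff]
    refine sum_congr rfl (fun σ _ => ?_)
    rw [Units.smul_def, Units.smul_def, coeff_smul, (key σ).2]
    rfl

/-- the operator `P ↦ φ P'` -/
noncomputable def th (φ P : F[X]) : F[X] := φ * derivative P

lemma th_top (φ P : F[X]) (e N : ℕ) (hφ : φ.natDegree ≤ e + 1) (hP : P.natDegree ≤ N) :
    (th φ P).natDegree ≤ N + e ∧
    (th φ P).coeff (N + e) = φ.coeff (e + 1) * (N : F) * P.coeff N := by
  unfold th
  rcases N with _ | N
  · have : derivative P = 0 := by
      rw [eq_C_of_natDegree_le_zero hP]; simp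
    simp [this]
  · have h1 : (derivative P).natDegree ≤ N := by
      have := natDegree_derivative_le P
      omega
    have e1 : N + 1 + e = (e + 1) + N := by ring
    rw [e1]
    refine ⟨natDegree_mul_le.trans (Nat.add_le_add hφ h1), ?_⟩
    rw [coeff_mul_add_eq_of_natDegree_le hφ h1, coeff_derivative]
    push_cast
    ring

noncomputable def pl (F : Type*) [Field F] (e l : ℕ) : F[X] := ∏ t ∈ range l, (X + C ((t * e : ℕ) : F))

lemma pl_monic (e l : ℕ) : (pl F e l).Monic :=
  monic_prod_of_monic _ _ (fun _ _ => monic_X_add_C _)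

lemma pl_natDegree (e l : ℕ) : (pl F e l).natDegree = l := by
  unfold pl
  rw [natDegree_prod_of_monic _ _ (fun _ _ => monic_X_add_C _)]
  simp only [natDegree_X_add_C]
  simp

lemma thn_top (φ P : F[X]) (e N : ℕ) (hφ : φ.natDegree ≤ e + 1) (hP : P.natDegree ≤ N) (l : ℕ) :
    ((th φ)^[l] P).natDegree ≤ N + l * e ∧
    ((th φ)^[l] P).coeff (N + l * e) =
      φ.coeff (e + 1) ^ l * (pl F e l).eval (N : F) * P.coeff N := by
  induction l with
  | zero => simp [pl, hP]
  | succ l ih =>
    rw [Function.iterate_succ_apply']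
    have := th_top φ _ e _ hφ ih.1
    have e1 : N + (l + 1) * e = N + l * e + e := by ring
    rw [e1]
    refine ⟨this.1, ?_⟩
    rw [this.2, ih.2]
    unfold pl
    rw [prod_range_succ, eval_mul]
    simp only [eval_add, eval_X, eval_C]
    push_cast
    ring

noncomputable def Bf (φ : F[X]) (n : ℕ) (A : F[X]) : ℕ → F[X]
  | 0 => A
  | l + 1 => th φ (Bf φ n A l) + C (n : F) * derivative φ * Bf φ n A l

lemma thn_eq (φ : F[X]) (n : ℕ) (A : F[X]) (l : ℕ) :
    (th φ)^[l] (A * φ ^ n) = Bf φ n A l * φ ^ n := by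
  induction l with
  | zero => simp [Bf]
  | succ l ih =>
    rw [Function.iterate_succ_apply', ih]
    simp only [Bf, th, derivative_mul, derivative_pow]
    rcases n with _ | n
    · simp
    · simp only [Nat.add_sub_cancel, pow_succ]
      ring

lemma Bf_deg (φ : F[X]) (n : ℕ) (A : F[X]) (e D : ℕ) (hφ : φ.natDegree ≤ e + 1)
    (hA : A.natDegree ≤ D) (l : ℕ) : (Bf φ n A l).natDegree ≤ D + l * e := by
  induction l with
  | zero => simpa [Bf] using hA
  | succ l ih =>
    have e1 : D + (l + 1) * e = D + l * e + e := by ring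
    rw [e1]
    simp only [Bf]
    refine (natDegree_add_le _ _).trans (max_le (th_top φ _ e _ hφ ih).1 ?_)
    refine natDegree_mul_le.trans ?_
    have h1 : (C (n : F) * derivative φ).natDegree ≤ e := by
      refine (natDegree_C_mul_le _ _).trans ?_
      have := natDegree_derivative_le φ
      omega
    omega

lemma th_dvd (φ u P : F[X]) (V : ℕ) (hu : u ∣ φ) (hP : u ^ V ∣ P) : u ^ V ∣ th φ P := by
  obtain ⟨R, rfl⟩ := hP
  obtain ⟨ψ, rfl⟩ := hu
  unfold th
  rcases V with _ | V
  · simp
  · simp only [derivative_mul, derivative_pow, Nat.add_sub_cancel]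
    exact ⟨ψ * (C ((V + 1 : ℕ) : F) * derivative u * R + u * derivative R), by ring⟩

lemma thn_dvd (φ u P : F[X]) (V : ℕ) (hu : u ∣ φ) (hP : u ^ V ∣ P) (l : ℕ) :
    u ^ V ∣ (th φ)^[l] P := by
  induction l with
  | zero => simpa using hP
  | succ l ih => rw [Function.iterate_succ_apply']; exact th_dvd φ u _ V hu ih

lemma thn_sum {ι : Type*} (φ : F[X]) (s : Finset ι) (f : ι → F[X]) (l : ℕ) :
    (th φ)^[l] (∑ i ∈ s, f i) = ∑ i ∈ s, (th φ)^[l] (f i) := by
  induction l with
  | zero => simp
  | succ l ih =>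
    simp only [Function.iterate_succ_apply', ih]
    unfold th
    rw [derivative_sum, mul_sum]

/-- A sum of `r` terms `A_i φ^{n_i}` of pairwise different degrees, one of them with `n_i = 0`,
cannot vanish to a high order at a root of `φ`. -/
lemma wronsk {r : ℕ} (φ : F[X]) (e D V : ℕ) (c : F) (hφ : φ.natDegree = e + 1)
    (hu : X - C c ∣ φ) (A : Fin r → F[X]) (n : Fin r → ℕ) (hA : ∀ i, A i ≠ 0)
    (hD : ∀ i, (A i).natDegree ≤ D)
    (hinj : Function.Injective (fun i => (((A i * φ ^ n i).natDegree : ℕ) : F)))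
    (i0 : Fin r) (h0 : n i0 = 0) (hV : (X - C c) ^ V ∣ ∑ i, A i * φ ^ n i) :
    V ≤ r * D + (∑ l : Fin r, (l : ℕ)) * e := by
  have hφ0 : φ ≠ 0 := by rintro rfl; simp at hφ
  set N : Fin r → ℕ := fun i => (A i * φ ^ n i).natDegree with hN
  let M : Matrix (Fin r) (Fin r) F[X] := Matrix.of fun i l => (th φ)^[l] (A i * φ ^ n i)
  let B : Matrix (Fin r) (Fin r) F[X] := Matrix.of fun i l => Bf φ (n i) (A i) l
  have hM : M.det ≠ 0 := by
    have h1 := (det_top M N (fun l => (l : ℕ) * e)
      (fun i l => (thn_top φ _ e (N i) hφ.le le_rfl l).1)).2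
    intro h
    rw [h, coeff_zero] at h1
    have h2 : (Matrix.of fun i l => (M i l).coeff (N i + (l : ℕ) * e)) =
        Matrix.of fun (i l : Fin r) => (A i * φ ^ n i).leadingCoeff *
          ((Matrix.of fun (i l : Fin r) => φ.leadingCoeff ^ (l : ℕ) *
            (Matrix.of fun (i l : Fin r) => (pl F e l).eval (N i : F)) i l) i l) := by
      ext i l
      simp only [M, Matrix.of_apply]
      rw [(thn_top φ _ e (N i) hφ.le le_rfl l).2, ← hφ]
      simp only [hN, leadingCoeff]
      ring
    rw [h2, Matrix.det_mul_column, Matrix.det_mul_row,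
      ← Matrix.det_eval_matrixOfPolynomials_eq_det_vandermonde (fun i => (N i : F))
        (fun l : Fin r => pl F e l) (fun l => pl_natDegree e l) (fun l => pl_monic e l)] at h1
    have h3 : (Matrix.vandermonde fun i => (N i : F)).det ≠ 0 :=
      Matrix.det_vandermonde_ne_zero_iff.2 hinj
    have h4 : ∏ i, (A i * φ ^ n i).leadingCoeff ≠ 0 :=
      prod_ne_zero_iff.2 (fun i _ => leadingCoeff_ne_zero.2 (mul_ne_zero (hA i) (pow_ne_zero _ hφ0)))
    have h5 : ∏ l : Fin r, φ.leadingCoeff ^ (l : ℕ) ≠ 0 :=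
      prod_ne_zero_iff.2 (fun i _ => pow_ne_zero _ (leadingCoeff_ne_zero.2 hφ0))
    exact mul_ne_zero h4 (mul_ne_zero h5 h3) h1.symm
  have hMB : M = Matrix.of fun i l => φ ^ n i * B i l := by
    ext1 i l
    simp only [M, B, Matrix.of_apply, thn_eq]
    ring
  have hB : B.det ≠ 0 := by
    intro h
    apply hM
    rw [hMB, Matrix.det_mul_column, h, mul_zero]
  have hBd : B.det.natDegree ≤ r * D + (∑ l : Fin r, (l : ℕ)) * e := by
    have := (det_top B (fun _ => D) (fun l => (l : ℕ) * e)
      (fun i l => Bf_deg φ (n i) (A i) e D hφ.le (hD i) l)).1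
    simpa [sum_mul] using this
  have hrow : ∀ l : Fin r, (X - C c) ^ V ∣ ∑ i, φ ^ n i * B i l := by
    intro l
    have := thn_dvd φ _ _ V hu hV l
    rw [thn_sum] at this
    convert this using 2 with i
    simp only [B, Matrix.of_apply, thn_eq]
    ring
  have hdvd : (X - C c) ^ V ∣ B.det := by
    have h1 : ∑ l, (∑ i, φ ^ n i * B i l) * B.adjugate l i0 = B.det := by
      simp only [sum_mul]
      rw [sum_comm]
      have : ∀ i, ∑ l, φ ^ n i * B i l * B.adjugate l i0 = φ ^ n i * (B * B.adjugate) i i0 := by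
        intro i
        rw [Matrix.mul_apply, mul_sum]
        exact sum_congr rfl (fun l _ => by ring)
      simp only [this, Matrix.mul_adjugate, Matrix.smul_apply, Matrix.one_apply, smul_eq_mul]
      rw [sum_eq_single i0]
      · simp [h0]
      · intro i _ hi; simp [hi]
      · simp
    rw [← h1]
    exact dvd_sum (fun l _ => (hrow l).mul_right _)
  have := natDegree_le_of_dvd hdvd hB
  rw [natDegree_pow, natDegree_X_sub_C, mul_one] at this
  omega

end Pool.Agent.MP_dcfa1b_co
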