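import Mathlib
import Pool.Agent.MP_dcfa1b_co.Wron
import Pool.Agent.MP_dcfa1b_co.Indep
import Pool.Agent.MP_dcfa1b_co.Gen

set_option autoImplicit false
open Polynomial Finset

namespace Pool.Agent.MP_dcfa1b_co

variable {F : Type*} [Field F]

noncomputable def blk (w : ℕ) (Z : F[X]) (c : ℕ) : F[X] :=
  ∑ t ∈ range w, monomial t (Z.coeff (t + c * w))

lemma one_block (Z : F[X]) (w : ℕ) :
    Z = ∑ t ∈ range w, monomial t (Z.coeff t) + X ^ w * divX^[w] Z := by
  ext n
  simp only [coeff_add, finset_sum_coeff, coeff_monomial, coeff_X_pow_mul', coeff_itdivX,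
    sum_ite_eq', mem_range]
  by_cases h : n < w
  · rw [if_pos h, if_neg (by omega), add_zero]
  · rw [if_neg h, if_pos (by omega), zero_add, Nat.sub_add_cancel (by omega)]

lemma blocks (Z : F[X]) (w M : ℕ) :
    Z = ∑ c ∈ range M, blk w Z c * X ^ (c * w) + X ^ (M * w) * divX^[M * w] Z := by
  induction M with
  | zero => simp
  | succ M ih =>
    have h1 := one_block (divX^[M * w] Z) w
    rw [← Function.iterate_add_apply] at h1
    simp only [coeff_itdivX] at h1
    have e1 : (M + 1) * w = w + M * w := by ring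
    rw [sum_range_succ, e1, pow_add]
    unfold blk at ih ⊢
    linear_combination ih + X ^ (M * w) * h1

lemma blk_deg (Z : F[X]) (w c : ℕ) : (blk w Z c).natDegree ≤ w - 1 := by
  refine natDegree_sum_le_of_forall_le _ _ (fun t ht => (natDegree_monomial_le _).trans ?_)
  have := mem_range.1 ht
  omega

/-- The sparse polynomial lemma in block form. -/
lemma sparse (φ : F[X]) (d p w M : ℕ) [CharP F p] (hd : φ.natDegree = d) (hd1 : 1 ≤ d)
    (hw : 1 ≤ w) (hM : 1 ≤ M) (hu : X - C 1 ∣ φ) (A : ℕ → F[X])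
    (hA : ∀ c, (A c).natDegree ≤ d * w - 1) (hp : d * (M * w) ≤ p) (h0 : A 0 ≠ 0) (R : ℕ)
    (T : Finset ℕ) (hT : T.card ≤ R) (hAT : ∀ c < M, A c ≠ 0 → c ∈ T) (V : ℕ)
    (hV : (X - C 1) ^ V ∣ ∑ c ∈ range M, A c * φ ^ (c * w)) :
    2 * V ≤ 2 * R * (d * w) + R * R * d := by
  classical
  have hφ0 : φ ≠ 0 := by rintro rfl; simp at hd; omega
  let Cs := (range M).filter (fun c => A c ≠ 0)
  have hr : Cs.card ≤ R := by
    refine le_trans (card_le_card ?_) hT
    intro c hc
    obtain ⟨a1, a2⟩ := mem_filter.1 hc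
    exact hAT c (mem_range.1 a1) a2
  let e : Fin Cs.card → ℕ := fun i => (Cs.equivFin.symm i : ℕ)
  have he : ∀ i, e i < M ∧ A (e i) ≠ 0 := by
    intro i
    obtain ⟨a1, a2⟩ := mem_filter.1 (Cs.equivFin.symm i).2
    exact ⟨mem_range.1 a1, a2⟩
  have hdw : 1 ≤ d * w := Nat.mul_pos hd1 hw
  have hdeg : ∀ i, (A (e i) * φ ^ (e i * w)).natDegree = (A (e i)).natDegree + e i * (d * w) := by
    intro i
    rw [natDegree_mul (he i).2 (pow_ne_zero _ hφ0), natDegree_pow, hd]
    ring
  have h00 : 0 ∈ Cs := mem_filter.2 ⟨mem_range.2 hM, h0⟩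
  have key := wronsk φ (d - 1) (d * w - 1) V 1 (by omega) hu (fun i => A (e i)) (fun i => e i * w)
    (fun i => (he i).2) (fun i => hA _)
    (by
      intro i j hij
      have lt : ∀ i, (A (e i) * φ ^ (e i * w)).natDegree < p := by
        intro i
        rw [hdeg]
        have a1 := hA (e i)
        have a2 : (e i + 1) * (d * w) ≤ M * (d * w) := Nat.mul_le_mul_right _ (he i).1
        have a3 : M * (d * w) = d * (M * w) := by ring
        have a4 : (e i + 1) * (d * w) = e i * (d * w) + d * w := by ring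
        omega
      have h1 := CharP.natCast_injOn_Iio F p (lt i) (lt j) hij
      rw [hdeg, hdeg] at h1
      have a1 := hA (e i)
      have a2 := hA (e j)
      have h2 := congrArg (fun x => x / (d * w)) h1
      simp only [Nat.add_mul_div_right _ _ hdw] at h2
      rw [Nat.div_eq_of_lt (by omega), Nat.div_eq_of_lt (by omega)] at h2
      apply Cs.equivFin.symm.injective
      apply Subtype.ext
      rw [zero_add, zero_add] at h2
      exact h2)
    (Cs.equivFin ⟨0, h00⟩) (by simp [e])
    (by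
      have : ∑ i, A (e i) * φ ^ (e i * w) = ∑ c ∈ range M, A c * φ ^ (c * w) := by
        rw [Equiv.sum_comp Cs.equivFin.symm (fun c : Cs => A c * φ ^ ((c : ℕ) * w)),
          sum_coe_sort Cs (fun c => A c * φ ^ (c * w))]
        apply sum_subset (filter_subset _ _)
        intro c hc hn
        have : A c = 0 := by
          by_contra h
          exact hn (mem_filter.2 ⟨hc, h⟩)
        simp [this]
      rw [this]
      exact hV)
  rw [Fin.sum_univ_eq_sum_range (fun l => l)] at key
  have h3 := sum_range_id_mul_two Cs.card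
  set σ := ∑ i ∈ range Cs.card, i
  set r := Cs.card
  have b1 : r * (d * w - 1) ≤ R * (d * w) := Nat.mul_le_mul hr (by omega)
  have b2 : r * (r - 1) ≤ R * R := Nat.mul_le_mul hr (by omega)
  have b3 : (σ * 2) * (d - 1) ≤ R * R * d := by rw [h3]; exact Nat.mul_le_mul b2 (by omega)
  have b4 : (σ * 2) * (d - 1) = 2 * (σ * (d - 1)) := by ring
  have b5 : 2 * R * (d * w) = 2 * (R * (d * w)) := by ring
  omega

variable [Fintype F] [DecidableEq F]

lemma coeff_Sser (φ : F[X]) (K i n : ℕ) (hn : n < K) : (Sser φ K i).coeff n = lam φ i (n + 1) := by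
  simp only [Sser, finset_sum_coeff, coeff_monomial, sum_ite_eq', mem_range, if_pos hn]

lemma coeff_Sh (φ : F[X]) (d K j m : ℕ) (hne : ∀ x, x ≠ 1 → φ.eval x ≠ 0) (E : Fin d → F[X])
    (hE : ∀ i, (E i).natDegree ≤ m) (hm : m < K)
    (hX : (X : F[X]) ^ j = ∑ i, (E i).comp φ * X ^ (i : ℕ)) :
    (∑ i, E i * Sser φ K i).coeff m = lam φ j (m + 1) := by
  have h1 : ∀ i : Fin d, (E i * Sser φ K i).coeff m =
      ∑ x ∈ univ.erase (1 : F), (E i).eval (φ.eval x) * x ^ (i : ℕ) * (φ.eval x)⁻¹ ^ (m + 1) := by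
    intro i
    rw [coeff_mul, Finset.Nat.sum_antidiagonal_eq_sum_range_succ_mk]
    have : ∀ t ∈ range (m + 1), (E i).coeff t * (Sser φ K i).coeff (m - t) =
        ∑ x ∈ univ.erase (1 : F),
          (E i).coeff t * (φ.eval x) ^ t * x ^ (i : ℕ) * (φ.eval x)⁻¹ ^ (m + 1) := by
      intro t ht
      have ht' := mem_range.1 ht
      rw [coeff_Sser φ K i _ (by omega), lam, mul_sum]
      refine sum_congr rfl (fun x hx => ?_)
      have hy := hne x (mem_erase.1 hx).1
      have e1 : m + 1 = t + (m - t + 1) := by omega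
      have e2 : (φ.eval x) ^ t * (φ.eval x)⁻¹ ^ t = 1 := by
        rw [← mul_pow, mul_inv_cancel₀ hy, one_pow]
      rw [e1, pow_add (φ.eval x)⁻¹ t]
      linear_combination (-((E i).coeff t * x ^ (i : ℕ) * (φ.eval x)⁻¹ ^ (m - t + 1))) * e2
    rw [sum_congr rfl this, sum_comm]
    refine sum_congr rfl (fun x _ => ?_)
    rw [eval_eq_sum_range' (Nat.lt_succ_of_le (hE i)), sum_mul, sum_mul]
  rw [finset_sum_coeff]
  simp only [h1]
  rw [sum_comm, lam]
  refine sum_congr rfl (fun x _ => ?_)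
  have h2 := congrArg (fun P => eval x P) hX
  simp only [eval_pow, eval_X, eval_finset_sum, eval_mul, eval_comp] at h2
  rw [h2, sum_mul]

lemma core (φ : F[X]) (d p : ℕ) [CharP F p] (hp : p.Prime) (hd : φ.natDegree = d) (hd1 : 1 ≤ d)
    (h0 : φ.coeff 0 = 1) (h1 : φ.eval 1 = 0) (hne : ∀ x, x ≠ 1 → φ.eval x ≠ 0)
    (hbig : 16 * d ^ 6 + 3 < p)
    (hvan : ∀ k, 1 ≤ k → 2 * d * k + 3 < Fintype.card F → ∀ j < d * k,
      (φ ^ k).coeff j * lam φ j k = 0)
    (hno : ¬ ∃ o, 1 < o ∧ ∀ i, φ.coeff i ≠ 0 → o ∣ i) :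
    φ ∣ (X - C 1) ^ (Fintype.card F - 2) := by
  by_contra hnd
  have hφ0 : φ ≠ 0 := by rintro rfl; simp at hd; omega
  have hpq : p ≤ Fintype.card F := by
    obtain ⟨n, -, hn⟩ := FiniteField.card F p
    rw [hn]
    exact Nat.le_self_pow n.ne_zero p
  set w := d * d + 1 with hw
  set M := 4 * d ^ 3 with hM
  set K := M * w with hK
  have hd3 : 1 ≤ d ^ 3 := Nat.one_le_pow _ _ hd1
  have hK2 : 2 * d * K + 3 < p := by
    have a1 : d ^ 4 ≤ d ^ 6 := Nat.pow_le_pow_right hd1 (by omega)
    have a2 : 2 * d * K = 8 * d ^ 6 + 8 * d ^ 4 := by rw [hK, hM, hw]; ring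
    omega
  have hK1 : 1 ≤ K := Nat.mul_pos (by omega) (by omega)
  have hdK : K ≤ d * K := Nat.le_mul_of_pos_left _ hd1
  have hdK' : d ≤ d * K := Nat.le_mul_of_pos_right _ hK1
  have hdK2 : 2 * d * K = 2 * (d * K) := by ring
  have hu : X - C 1 ∣ φ := dvd_iff_isRoot.2 h1
  -- the shape of `φ` at zero
  have hφ1 : φ - 1 ≠ 0 := by
    intro h
    rw [sub_eq_zero.1 h] at h1
    simp at h1
  obtain ⟨ψ, hψ1, hψ2⟩ := exists_eq_pow_rootMultiplicity_mul_and_not_dvd (φ - 1) hφ1 0
  have hs1 : 1 ≤ rootMultiplicity 0 (φ - 1) := by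
    apply (rootMultiplicity_pos hφ1).2
    rw [IsRoot, ← coeff_zero_eq_eval_zero]
    simp [h0]
  set s := rootMultiplicity 0 (φ - 1)
  rw [C_0, sub_zero] at hψ1 hψ2
  rw [X_dvd_iff] at hψ2
  have hφs : φ = X ^ s * ψ + 1 := by rw [← hψ1]; ring
  have hsd : s ≤ d := by
    have a1 : (φ - 1).natDegree = d := by rw [← C_1, natDegree_sub_C, hd]
    have a2 : ψ ≠ 0 := by rintro rfl; simp at hψ2
    rw [hψ1, natDegree_mul (pow_ne_zero _ X_ne_zero) a2, natDegree_X_pow] at a1
    omega
  have hsl : ∀ l : Fin d, s * (l : ℕ) ≤ d * d := fun l => Nat.mul_le_mul hsd l.2.le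
  have hder : derivative φ ≠ 0 := by
    intro h
    have a1 := congrArg (fun P => coeff P (d - 1)) h
    simp only [coeff_derivative, coeff_zero] at a1
    have a2 : d - 1 + 1 = d := by omega
    have a3 : ((d - 1 : ℕ) : F) + 1 = (d : F) := by exact_mod_cast congrArg (Nat.cast (R := F)) a2
    rw [a2, a3] at a1
    rcases mul_eq_zero.1 a1 with a4 | a4
    · rw [← hd] at a4; exact hφ0 (leadingCoeff_eq_zero.1 a4)
    · rw [CharP.cast_eq_zero_iff F p] at a4
      have := Nat.le_of_dvd hd1 a4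
      omega
  -- digits
  have hdig : ∀ l : Fin d, ∃ E : Fin d → F[X], (∀ i, (E i).natDegree ≤ d) ∧
      (X : F[X]) ^ (s * (l : ℕ)) = ∑ i, (E i).comp φ * X ^ (i : ℕ) := by
    intro l
    apply digits φ d hd hd1 d
    rw [natDegree_X_pow]
    have := hsl l
    have : d * (d + 1) = d * d + d := by ring
    omega
  choose E hE1 hE2 using hdig
  let Em : Matrix (Fin d) (Fin d) F[X] := Matrix.of E
  have hδ : Em.det ≠ 0 := by
    intro h
    obtain ⟨v, hv, hv2⟩ := Matrix.exists_vecMul_eq_zero_iff.2 h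
    apply hno
    apply indep φ d s hd hs1 hder v hv
    simp only [hE2, mul_sum]
    rw [sum_comm]
    refine sum_eq_zero (fun i _ => ?_)
    have a1 := congrFun hv2 i
    simp only [Matrix.vecMul, dotProduct, Em, Matrix.of_apply, Pi.zero_apply] at a1
    have a2 := congrArg (fun P => P.comp φ) a1
    simp only [Polynomial.sum_comp, mul_comp, zero_comp] at a2
    simp only [← mul_assoc, ← sum_mul, a2, zero_mul]
  have hδd : Em.det.natDegree ≤ d * d := by
    have := (det_top Em (fun _ => d) (fun _ => 0) (fun l i => hE1 l i)).1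
    simpa using this
  have hadj : ∀ i l, (Em.adjugate i l).natDegree ≤ d * d := by
    intro i l
    rw [Matrix.adjugate_apply]
    have := (det_top (Em.updateRow l (Pi.single i 1)) (fun _ => d) (fun _ => 0) (fun a b => by
      rw [Matrix.updateRow_apply]
      split_ifs
      · rw [Pi.single_apply]
        split_ifs <;> simp
      · exact hE1 a b)).1
    simpa using this
  -- the bad set
  let Bad : Finset ℕ := range d ∪ (univ : Finset (Fin d)).biUnion (fun l =>
    ((range p).filter (fun k => ((X ^ s * ψ + 1) ^ k).coeff (s * (l : ℕ)) = 0)).image (· - 1))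
  have hBad : Bad.card ≤ d * d := by
    refine (card_union_le _ _).trans ?_
    have a1 : ((univ : Finset (Fin d)).biUnion (fun l =>
        ((range p).filter (fun k => ((X ^ s * ψ + 1) ^ k).coeff (s * (l : ℕ)) = 0)).image
          (· - 1))).card ≤ (univ : Finset (Fin d)).card * (d - 1) := by
      apply card_biUnion_le_card_mul
      intro l _
      have := l.2
      exact card_image_le.trans ((bad_card ψ s l p hp hs1 hψ2 (by omega)).trans (by omega))
    rw [card_univ, Fintype.card_fin] at a1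
    rw [card_range]
    have : d * (d - 1) + d = d * d := by
      rw [← Nat.mul_succ]; congr 1; omega
    omega
  let Sh : Fin d → F[X] := fun l => ∑ i, E l i * Sser φ K i
  have hSh : ∀ l m, m < K → m ∉ Bad → (Sh l).coeff m = 0 := by
    intro l m hm hmB
    simp only [Bad, mem_union, not_or, mem_range, mem_biUnion, mem_univ, true_and, not_exists,
      mem_image, mem_filter, not_and] at hmB
    have a1 : d ≤ m := by omega
    have a2 := coeff_Sh φ d K _ m hne (E l) (fun i => (hE1 l i).trans a1) hm (hE2 l)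
    simp only [Sh]
    rw [a2]
    have a3 : 2 * d * (m + 1) ≤ 2 * d * K := Nat.mul_le_mul_left _ hm
    have a4 : d * (d + 1) ≤ d * (m + 1) := Nat.mul_le_mul_left _ (by omega)
    have a5 := hvan (m + 1) (by omega) (by omega) (s * l) (by
      have := hsl l
      have : d * (d + 1) = d * d + d := by ring
      omega)
    refine (mul_eq_zero.1 a5).resolve_left (fun h => ?_)
    exact hmB.2 l (m + 1) ⟨by omega, by rw [← hφs]; exact h⟩ (by simp)
  let Z : Fin d → F[X] := fun i => Em.det * Sser φ K i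
  have hZ : ∀ i, Z i = ∑ l, Em.adjugate i l * Sh l := by
    intro i
    simp only [Sh, mul_sum, Z]
    rw [sum_comm]
    have : ∀ j : Fin d, ∑ l, Em.adjugate i l * (E l j * Sser φ K j) =
        (Em.adjugate * Em) i j * Sser φ K j := by
      intro j
      rw [Matrix.mul_apply, sum_mul]
      exact sum_congr rfl (fun l _ => by simp only [Em, Matrix.of_apply]; ring)
    simp only [this, Matrix.adjugate_mul, Matrix.smul_apply, Matrix.one_apply, smul_eq_mul]
    rw [sum_eq_single i]
    · simp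
    · intro j _ hj; simp [hj.symm]
    · simp
  have hZs : ∀ i m, m < K → (Z i).coeff m ≠ 0 → ∃ b ∈ Bad, b ≤ m ∧ m ≤ b + d * d := by
    intro i m hm hc
    by_contra hcon
    push Not at hcon
    apply hc
    rw [hZ, finset_sum_coeff]
    refine sum_eq_zero (fun l _ => ?_)
    rw [coeff_mul]
    refine sum_eq_zero (fun ab hab => ?_)
    have a1 := mem_antidiagonal.1 hab
    by_cases hb : ab.2 ∈ Bad
    · have := hcon _ hb (by omega)
      have := hadj i l
      rw [coeff_eq_zero_of_natDegree_lt (by omega), zero_mul]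
    · rw [hSh l _ (by omega) hb, mul_zero]
  let A : ℕ → F[X] := fun c => ∑ i : Fin d, divX^[(i : ℕ) + 1] φ * (blk w (Z i) c).comp φ
  have hA : ∀ c, (A c).natDegree ≤ d * w - 1 := by
    intro c
    refine natDegree_sum_le_of_forall_le _ _ (fun i _ => natDegree_mul_le.trans ?_)
    rw [natDegree_itdivX, hd]
    have a1 : ((blk w (Z i) c).comp φ).natDegree ≤ (w - 1) * d := by
      refine natDegree_comp_le.trans ?_
      rw [hd]
      exact Nat.mul_le_mul_right _ (blk_deg _ _ _)
    have a2 : (w - 1) * d + d = d * w := by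
      rw [← Nat.succ_mul, mul_comm]; congr 1
    omega
  have hΓ : ∀ M', ∃ R, Em.det.comp φ * Gp φ d K =
      ∑ c ∈ range M', A c * φ ^ (c * w) + φ ^ (M' * w) * R := by
    intro M'
    refine ⟨∑ i : Fin d, divX^[(i : ℕ) + 1] φ * (divX^[M' * w] (Z i)).comp φ, ?_⟩
    simp only [A, Gp, mul_sum, sum_mul]
    rw [sum_comm, ← sum_add_distrib]
    refine sum_congr rfl (fun i _ => ?_)
    have a1 := congrArg (fun P => P.comp φ) (blocks (Z i) w M')
    simp only [add_comp, Polynomial.sum_comp, mul_comp, X_pow_comp] at a1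
    have a2 : (Z i).comp φ = Em.det.comp φ * (Sser φ K i).comp φ := by simp only [Z, mul_comp]
    rw [a2] at a1
    simp only [mul_assoc, ← mul_sum]
    linear_combination divX^[(i : ℕ) + 1] φ * a1
  obtain ⟨H, hH⟩ := G_ident φ d K hd hne
  have hGdvd : (X - C 1) ^ K ∣ Gp φ d K := by
    have a1 : (X - C (1 : F)) ^ K ∣ φ ^ K * H + (X - C 1) ^ (Fintype.card F - 2) :=
      dvd_add ((pow_dvd_pow_of_dvd hu K).mul_right _) (pow_dvd_pow _ (by omega))
    have a2 : (X - C (1 : F)) ^ K ∣ Gp φ d K * (X - C 1) ^ (Fintype.card F - 1) :=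
      (pow_dvd_pow _ (by omega)).mul_left _
    rw [← hH] at a1
    have := dvd_sub a2 a1
    convert this using 1
    ring
  have hA0 : A 0 ≠ 0 := by
    intro hA0
    obtain ⟨R, hR⟩ := hΓ 1
    rw [sum_range_one, hA0, zero_mul, zero_add, one_mul] at hR
    obtain ⟨δ', hδ1, hδ2⟩ := exists_eq_pow_rootMultiplicity_mul_and_not_dvd _ hδ 0
    set ν := rootMultiplicity 0 Em.det
    rw [C_0, sub_zero] at hδ1 hδ2
    rw [X_dvd_iff] at hδ2
    have hν : ν ≤ d * d := by
      have a2 : δ' ≠ 0 := by rintro rfl; simp at hδ2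
      rw [hδ1, natDegree_mul (pow_ne_zero _ X_ne_zero) a2, natDegree_X_pow] at hδd
      omega
    have e1 : w = ν + ((d * d - ν) + 1) := by omega
    rw [hδ1, mul_comp, X_pow_comp, e1, pow_add, mul_assoc, mul_assoc] at hR
    have a3 := mul_left_cancel₀ (pow_ne_zero _ hφ0) hR
    have a4 := congrArg (fun P => P.comp φ) (X_mul_divX_add δ')
    simp only [add_comp, mul_comp, X_comp, C_comp] at a4
    have a5 : φ ∣ C (δ'.coeff 0) * Gp φ d K :=
      ⟨φ ^ (d * d - ν) * R - (divX δ').comp φ * Gp φ d K, by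
        rw [← a4, pow_succ] at a3
        linear_combination a3⟩
    have a6 : φ ∣ Gp φ d K := (isUnit_C.2 (IsUnit.mk0 _ hδ2)).dvd_mul_left.1 a5
    apply hnd
    have a7 : φ ∣ φ ^ K * H := (dvd_pow_self φ (by omega)).mul_right _
    have a8 := dvd_sub (a6.mul_right ((X - C 1) ^ (Fintype.card F - 1) - 1)) a7
    rw [hH] at a8
    simpa using a8
  have hfin := sparse φ d p w M hd hd1 (by omega) (by omega) hu A hA (by rw [← hK]; omega) hA0 (2 * (d * d))
    (Bad.image (· / w) ∪ Bad.image (fun b => b / w + 1))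
    (by
      refine (card_union_le _ _).trans ?_
      have a1 := card_image_le (s := Bad) (f := (· / w))
      have a2 := card_image_le (s := Bad) (f := fun b => b / w + 1)
      omega)
    (by
      intro c hc hAc
      obtain ⟨i, -, hi⟩ := exists_ne_zero_of_sum_ne_zero hAc
      have a1 : blk w (Z i) c ≠ 0 := by
        intro h
        rw [h] at hi
        simp at hi
      obtain ⟨t, ht, ht2⟩ := exists_ne_zero_of_sum_ne_zero a1
      have ht' := mem_range.1 ht
      have a2 : (c + 1) * w ≤ M * w := Nat.mul_le_mul_right _ hc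
      have a3 : (c + 1) * w = c * w + w := by ring
      obtain ⟨b, hb, hb1, hb2⟩ := hZs i (t + c * w) (by omega) (by
        intro h
        rw [h] at ht2
        simp at ht2)
      have hw0 : 0 < w := by omega
      have a4 : b / w ≤ c := by
        rw [← Nat.lt_succ_iff, Nat.div_lt_iff_lt_mul hw0]
        simp only [Nat.succ_eq_add_one]
        omega
      have a5 : c ≤ b / w + 1 := by
        rw [← Nat.add_div_right b hw0, Nat.le_div_iff_mul_le hw0]
        omega
      rw [mem_union, mem_image, mem_image]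
      by_cases h : b / w = c
      · exact Or.inl ⟨b, hb, h⟩
      · exact Or.inr ⟨b, hb, by omega⟩)
    K
    (by
      obtain ⟨R, hR⟩ := hΓ M
      have a1 : (X - C (1 : F)) ^ K ∣ φ ^ (M * w) * R := (pow_dvd_pow_of_dvd hu K).mul_right _
      have a2 := dvd_sub (hGdvd.mul_left (Em.det.comp φ)) a1
      rw [hR] at a2
      simpa using a2)
  have b1 : 2 * K = 8 * d ^ 5 + 8 * d ^ 3 := by rw [hK, hM, hw]; ring
  have b2 : 2 * (2 * (d * d)) * (d * w) + 2 * (d * d) * (2 * (d * d)) * d =
      8 * d ^ 5 + 4 * d ^ 3 := by rw [hw]; ring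
  omega

end Pool.Agent.MP_dcfa1b_co
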