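import Pool.Agent.Mg.Fdcfa1b.G991a9a

set_option autoImplicit false

namespace Pool.Agent.Results.MP_dcfa1b_co.LowDegree

open Pool.Agent.MP_dcfa1b_co

/-- A permutation array of order `n = q - 2` with the shift property (S) whose dots are
`(i, j)` with `φ(α^i) = β^j`, for primitive `α, β` of a field with `q` elements and a polynomial `φ`
of degree `d` with `16 d^6 + 3` below the characteristic, is a Golomb array over that field. -/
theorem result :
    ∀ (n : ℕ) (f : Equiv.Perm (Fin n)),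
      (∀ s t : ℕ, ∀ i j k l : Fin n, i ≠ j → k ≠ l →
        (((((i : ℕ) + 1 + s) % (n + 1) : ℕ) : ℤ) - ((((j : ℕ) + 1 + s) % (n + 1) : ℕ) : ℤ)
            = ((((k : ℕ) + 1 + s) % (n + 1) : ℕ) : ℤ) - ((((l : ℕ) + 1 + s) % (n + 1) : ℕ) : ℤ) ∧
         ((((f i : ℕ) + 1 + t) % (n + 1) : ℕ) : ℤ) - ((((f j : ℕ) + 1 + t) % (n + 1) : ℕ) : ℤ)
            = ((((f k : ℕ) + 1 + t) % (n + 1) : ℕ) : ℤ) - ((((f l : ℕ) + 1 + t) % (n + 1) : ℕ) : ℤ)) →
        i = k ∧ j = l) →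
      ∀ (F : Type) [Field F] [Fintype F], Fintype.card F = n + 2 →
      ∀ α β : F, orderOf α = n + 1 → orderOf β = n + 1 →
      ∀ φ : Polynomial F, 16 * φ.natDegree ^ 6 + 3 < ringChar F →
        (∀ i : Fin n, φ.eval (α ^ ((i : ℕ) + 1)) = β ^ ((f i : ℕ) + 1)) →
        ∃ α' β' : F, orderOf α' = n + 1 ∧ orderOf β' = n + 1 ∧
          ∀ i : Fin n, α' ^ ((i : ℕ) + 1) + β' ^ ((f i : ℕ) + 1) = 1 := by
  intro n f hS F _ _ hq α β hα hβ φ hbig hφ
  classical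
  exact golomb n f β hβ (fun α' φ' h1 h2 => sid_of_shift n f hS hq α' β h1 hβ φ' h2) _ α φ rfl hα
    hbig hφ

end Pool.Agent.Results.MP_dcfa1b_co.LowDegree
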