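import Mathlib
import Pool.Agent.MP_dcfa1b_co.Gen

set_option autoImplicit false
open Polynomial Finset

namespace Pool.Agent.MP_dcfa1b_co

variable {F : Type*} [Field F] [Fintype F] [DecidableEq F]

/-- multiplicative form of the shift property -/
def Sid (φ : F → F) : Prop :=
  (∀ x, x ≠ 0 → x ≠ 1 → φ x ≠ 0 ∧ φ x ≠ 1) ∧
  (∀ x y, x ≠ 0 → x ≠ 1 → y ≠ 0 → y ≠ 1 → φ x = φ y → x = y) ∧
  (∀ a x y, a ≠ 0 → a ≠ 1 → a ≠ -1 → x ≠ 0 → x ≠ 1 → y ≠ 0 → y ≠ 1 → a * x ≠ 1 → a * y ≠ 1 →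
    φ (a * x) * φ y = φ (a * y) * φ x → x = y)

def UU (F : Type*) [Field F] [Fintype F] [DecidableEq F] : Finset F := (univ.erase 1).erase 0

lemma mem_UU (x : F) : x ∈ UU F ↔ x ≠ 0 ∧ x ≠ 1 := by simp [UU]

lemma sum_univ_UU (f : F → F) : ∑ x, f x = f 0 + f 1 + ∑ x ∈ UU F, f x := by
  rw [← add_sum_erase _ _ (mem_univ (1 : F)),
    ← add_sum_erase _ _ (show (0 : F) ∈ univ.erase 1 by simp), UU]
  ring

lemma sum_UU_pow (k : ℕ) (hk : 1 ≤ k) (hk2 : k < Fintype.card F - 1) :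
    ∑ y ∈ UU F, y ^ k = -1 := by
  have h1 := FiniteField.sum_pow_lt_card_sub_one F k hk2
  rw [sum_univ_UU (fun y => y ^ k), zero_pow (by omega), one_pow] at h1
  linear_combination h1

lemma image_UU (φ : F → F) (h : Sid φ) : (UU F).image φ = UU F := by
  apply eq_of_subset_of_card_le
  · intro y hy
    obtain ⟨x, hx, rfl⟩ := mem_image.1 hy
    rw [mem_UU] at hx ⊢
    exact h.1 x hx.1 hx.2
  · rw [card_image_of_injOn]
    intro x hx y hy hxy
    rw [mem_coe, mem_UU] at hx hy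
    exact h.2.1 x y hx.1 hx.2 hy.1 hy.2 hxy

lemma injOn_UU (φ : F → F) (h : Sid φ) : Set.InjOn φ (UU F) := by
  intro x hx y hy hxy
  rw [mem_coe, mem_UU] at hx hy
  exact h.2.1 x y hx.1 hx.2 hy.1 hy.2 hxy

lemma missing (φ : F → F) (h : Sid φ) (a : F) (ha0 : a ≠ 0) (ha1 : a ≠ 1) (ha2 : a ≠ -1) :
    ∃ g, g * φ a⁻¹ = (∏ y ∈ UU F, y) * φ a ∧ (∀ k, 1 ≤ k → k < Fintype.card F - 1 →
      ∑ x ∈ (UU F).erase a⁻¹, (φ (a * x) * (φ x)⁻¹) ^ k = -1 - g ^ k) ∧ g ≠ 1 ∧
      ∀ x ∈ (UU F).erase a⁻¹, φ (a * x) * (φ x)⁻¹ ≠ g := by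
  set r : F → F := fun x => φ (a * x) * (φ x)⁻¹ with hr
  have hmem : ∀ x ∈ (UU F).erase a⁻¹, x ≠ 0 ∧ x ≠ 1 ∧ a * x ≠ 0 ∧ a * x ≠ 1 := by
    intro x hx
    obtain ⟨b1, b2⟩ := mem_erase.1 hx
    rw [mem_UU] at b2
    refine ⟨b2.1, b2.2, mul_ne_zero ha0 b2.1, fun hh => b1 ?_⟩
    exact eq_inv_of_mul_eq_one_right hh
  have hai : a⁻¹ ∈ UU F := (mem_UU _).2 ⟨inv_ne_zero ha0, fun hh => ha1 (inv_eq_one.1 hh)⟩
  have haU : a ∈ UU F := (mem_UU _).2 ⟨ha0, ha1⟩
  have hinj : Set.InjOn r ((UU F).erase a⁻¹) := by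
    intro x hx y hy hxy
    obtain ⟨x0, x1, x2, x3⟩ := hmem x hx
    obtain ⟨y0, y1, y2, y3⟩ := hmem y hy
    apply h.2.2 a x y ha0 ha1 ha2 x0 x1 y0 y1 x3 y3
    have c1 := (h.1 x x0 x1).1
    have c2 := (h.1 y y0 y1).1
    simp only [hr] at hxy
    field_simp at hxy
    linear_combination hxy
  have hsub : ((UU F).erase a⁻¹).image r ⊆ UU F := by
    intro y hy
    obtain ⟨x, hx, rfl⟩ := mem_image.1 hy
    obtain ⟨x0, x1, x2, x3⟩ := hmem x hx
    have c1 := (h.1 x x0 x1).1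
    have c2 := (h.1 _ x2 x3).1
    rw [mem_UU]
    refine ⟨mul_ne_zero c2 (inv_ne_zero c1), fun hh => ha1 ?_⟩
    have c3 : φ (a * x) = φ x := by
      simp only [hr] at hh
      field_simp at hh
      exact hh
    have := h.2.1 _ _ x2 x3 x0 x1 c3
    exact mul_right_cancel₀ x0 (by rw [this, one_mul])
  obtain ⟨g, hg1, hg2⟩ := exists_eq_insert_iff.2 ⟨hsub, by
    rw [card_image_of_injOn hinj, card_erase_add_one hai]⟩
  refine ⟨g, ?_, fun k hk hk2 => ?_, ?_, fun x hx hh => hg1 (mem_image.2 ⟨x, hx, hh⟩)⟩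
  · have p1 : ∏ y ∈ UU F, y = g * ∏ x ∈ (UU F).erase a⁻¹, r x := by
      conv_lhs => rw [← hg2, prod_insert hg1, prod_image hinj]
    have p0 : ∏ x ∈ UU F, φ x = ∏ y ∈ UU F, y := by
      conv_rhs => rw [← image_UU φ h, prod_image (injOn_UU φ h)]
    have p2 : φ a⁻¹ * ∏ x ∈ (UU F).erase a⁻¹, φ x = ∏ y ∈ UU F, y := by
      rw [mul_prod_erase _ _ hai, p0]
    have p3 : φ a * ∏ x ∈ (UU F).erase a⁻¹, φ (a * x) = ∏ y ∈ UU F, y := by
      rw [← p0, ← mul_prod_erase _ _ haU]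
      congr 1
      refine prod_nbij' (fun x => a * x) (fun y => a⁻¹ * y) ?_ ?_ ?_ ?_ ?_
      · intro x hx
        obtain ⟨x0, x1, x2, x3⟩ := hmem x hx
        refine mem_erase.2 ⟨fun hh => x1 ?_, (mem_UU _).2 ⟨x2, x3⟩⟩
        exact mul_left_cancel₀ ha0 (by rw [hh, mul_one])
      · intro y hy
        obtain ⟨b1, b2⟩ := mem_erase.1 hy
        rw [mem_UU] at b2
        refine mem_erase.2 ⟨fun hh => b2.2 ?_, (mem_UU _).2 ⟨mul_ne_zero (inv_ne_zero ha0) b2.1,
          fun hh => b1 ?_⟩⟩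
        · exact mul_left_cancel₀ (inv_ne_zero ha0) (by rw [hh, mul_one])
        · field_simp at hh
          exact hh
      · intro x _; field_simp
      · intro x _; field_simp
      · intro x _; rfl
    have p4 : (∏ x ∈ (UU F).erase a⁻¹, r x) * ∏ x ∈ (UU F).erase a⁻¹, φ x =
        ∏ x ∈ (UU F).erase a⁻¹, φ (a * x) := by
      rw [← prod_mul_distrib]
      refine prod_congr rfl (fun x hx => ?_)
      obtain ⟨x0, x1, x2, x3⟩ := hmem x hx
      have c1 := (h.1 x x0 x1).1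
      simp only [hr]
      field_simp
    have p5 : (∏ y ∈ UU F, y) ≠ 0 := prod_ne_zero_iff.2 (fun y hy => ((mem_UU y).1 hy).1)
    set P := ∏ y ∈ UU F, y
    set R := ∏ x ∈ (UU F).erase a⁻¹, r x
    set A := ∏ x ∈ (UU F).erase a⁻¹, φ x
    set B := ∏ x ∈ (UU F).erase a⁻¹, φ (a * x)
    have hA : A ≠ 0 := by
      intro hh
      rw [hh, mul_zero] at p2
      exact p5 p2.symm
    have hR : R ≠ 0 := by
      intro hh
      rw [hh, mul_zero] at p1
      exact p5 p1
    apply mul_right_cancel₀ (mul_ne_zero hR hA)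
    linear_combination (g * R) * p2 - P * p1 - P * p3 - P * φ a * p4
  · have s1 := sum_UU_pow (F := F) k hk hk2
    rw [← hg2, sum_insert hg1, sum_image hinj] at s1
    linear_combination s1
  · have : g ∈ UU F := by rw [← hg2]; exact mem_insert_self _ _
    exact ((mem_UU g).1 this).2

omit [DecidableEq F] in
lemma sum_eval_zero (P : F[X]) (hP : P.natDegree < Fintype.card F - 1) : ∑ x, P.eval x = 0 := by
  simp only [eval_eq_sum_range]
  rw [sum_comm]
  refine sum_eq_zero (fun j hj => ?_)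
  have := mem_range.1 hj
  rw [← mul_sum, FiniteField.sum_pow_lt_card_sub_one F j (by omega), mul_zero]

lemma poly_id (P Q : F[X]) (N : ℕ) (hP : P.natDegree ≤ N) (hQ : Q.natDegree ≤ N)
    (hN : N + 3 < Fintype.card F)
    (h : ∀ a, a ≠ 0 → a ≠ 1 → a ≠ -1 → P.eval a = Q.eval a) : P = Q := by
  apply eq_of_natDegree_lt_card_of_eval_eq' P Q ((UU F).erase (-1))
  · intro a ha
    obtain ⟨b1, b2⟩ := mem_erase.1 ha
    rw [mem_UU] at b2
    exact h a b2.1 b2.2 b1
  · have a1 := pred_card_le_card_erase (s := UU F) (a := -1)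
    have a2 := pred_card_le_card_erase (s := univ.erase (1 : F)) (a := 0)
    have a3 := pred_card_le_card_erase (s := (univ : Finset F)) (a := 1)
    rw [card_univ] at a3
    unfold UU at a1 ⊢
    omega

omit [Fintype F] [DecidableEq F] in
lemma eval_rev (φ : F[X]) (a : F) (ha : a ≠ 0) :
    φ.reverse.eval a = a ^ φ.natDegree * φ.eval a⁻¹ := by
  letI : Invertible a⁻¹ := invertibleOfNonzero (inv_ne_zero ha)
  have := eval₂_reverse_mul_pow (RingHom.id F) a⁻¹ φ
  rw [invOf_eq_inv, inv_inv] at this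
  simp only [eval₂_id] at this
  rw [← this, mul_comm, mul_assoc, ← mul_pow, inv_mul_cancel₀ ha, one_pow, mul_one]

/-- the sum `∑_{x ∈ S} (φ(a x)/φ(x))^k` as a polynomial in `a` -/
noncomputable def Pk (φ : F[X]) (S : Finset F) (k : ℕ) : F[X] :=
  ∑ j ∈ range ((φ ^ k).natDegree + 1),
    monomial j ((φ ^ k).coeff j * ∑ x ∈ S, x ^ j * (φ.eval x)⁻¹ ^ k)

omit [Fintype F] [DecidableEq F] in
lemma Pk_eval (φ : F[X]) (S : Finset F) (k : ℕ) (a : F) :
    (Pk φ S k).eval a = ∑ x ∈ S, (φ.eval (a * x) * (φ.eval x)⁻¹) ^ k := by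
  simp only [Pk, eval_finset_sum, eval_monomial, mul_sum, sum_mul]
  rw [sum_comm]
  refine sum_congr rfl (fun x _ => ?_)
  rw [mul_pow, ← eval_pow, eval_eq_sum_range (p := φ ^ k), sum_mul]
  refine sum_congr rfl (fun j _ => ?_)
  rw [mul_pow]
  ring

omit [Fintype F] [DecidableEq F] in
lemma Pk_deg (φ : F[X]) (S : Finset F) (k : ℕ) : (Pk φ S k).natDegree ≤ k * φ.natDegree := by
  refine natDegree_sum_le_of_forall_le _ _ (fun j hj => (natDegree_monomial_le _).trans ?_)
  have := mem_range.1 hj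
  rw [natDegree_pow] at this
  omega

omit [Fintype F] [DecidableEq F] in
lemma Pk_coeff (φ : F[X]) (S : Finset F) (k j : ℕ) (hj : j ≤ k * φ.natDegree) :
    (Pk φ S k).coeff j = (φ ^ k).coeff j * ∑ x ∈ S, x ^ j * (φ.eval x)⁻¹ ^ k := by
  simp only [Pk, finset_sum_coeff, coeff_monomial, sum_ite_eq', mem_range, natDegree_pow]
  rw [if_pos (by omega)]

lemma card_UU : Fintype.card F - 2 ≤ (UU F).card := by
  have a2 := pred_card_le_card_erase (s := univ.erase (1 : F)) (a := 0)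
  have a3 := pred_card_le_card_erase (s := (univ : Finset F)) (a := 1)
  rw [card_univ] at a3
  unfold UU
  omega

lemma deg_pos (φ : F[X]) (h : Sid (fun x => φ.eval x)) (hq : 3 < Fintype.card F) :
    1 ≤ φ.natDegree := by
  by_contra hc
  have h1 := card_UU (F := F)
  obtain ⟨x, hx, y, hy, hxy⟩ := one_lt_card.1 (show 1 < (UU F).card by omega)
  apply hxy
  apply injOn_UU _ h hx hy
  rw [eq_C_of_natDegree_le_zero (p := φ) (by omega)]
  simp

lemma ends (φ : F[X]) (h : Sid (fun x => φ.eval x))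
    (hd : 2 * φ.natDegree + 3 < Fintype.card F) :
    (φ.eval 0 = 0 ∧ φ.eval 1 = 1) ∨ (φ.eval 0 = 1 ∧ φ.eval 1 = 0) := by
  have k1 : φ.eval 0 + φ.eval 1 = 1 := by
    have a1 := sum_eval_zero φ (by omega)
    rw [sum_univ_UU (fun x => φ.eval x)] at a1
    have a2 := sum_UU_pow (F := F) 1 le_rfl (by omega)
    rw [← image_UU _ h, sum_image (injOn_UU _ h)] at a2
    simp only [pow_one] at a2
    linear_combination a1 - a2
  by_cases hu : φ.eval 0 = 0
  · left; exact ⟨hu, by linear_combination k1 - hu⟩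
  by_cases hv : φ.eval 1 = 0
  · right; exact ⟨by linear_combination k1 - hv, hv⟩
  exfalso
  have hφ0 : φ ≠ 0 := by rintro rfl; simp at hu
  have hd1 := deg_pos φ h (by omega)
  set d := φ.natDegree with hdd
  set P := ∏ y ∈ UU F, y
  set v := φ.eval 1 with hvv
  have hrev := reverse_natDegree_le φ
  have key : Pk φ univ 1 * φ.reverse =
      C v⁻¹ * φ * φ.reverse + C v * X ^ d - C P * φ * X ^ d := by
    apply poly_id _ _ (2 * d) _ _ hd
    · intro a ha0 ha1 ha2
      obtain ⟨g, hg1, hg2, -⟩ := missing _ h a ha0 ha1 ha2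
      have b1 := hg2 1 le_rfl (by omega)
      have hai : a⁻¹ ∈ UU F := (mem_UU _).2 ⟨inv_ne_zero ha0, fun hh => ha1 (inv_eq_one.1 hh)⟩
      have b3 := ((mem_UU _).1 hai)
      have b4 := (h.1 _ b3.1 b3.2).1
      simp only [eval_mul, eval_add, eval_sub, eval_C, eval_pow, eval_X, Pk_eval,
        eval_rev φ a ha0]
      rw [sum_univ_UU, ← add_sum_erase _ _ hai, b1, mul_one, mul_zero, mul_inv_cancel₀ ha0,
        mul_inv_cancel₀ hu, ← hdd, ← hvv]
      simp only at b4 hg1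
      have b5 := inv_mul_cancel₀ b4
      simp only [pow_one]
      linear_combination v * a ^ d * b5 - a ^ d * hg1
    · refine natDegree_mul_le.trans ?_
      have := Pk_deg φ univ 1
      omega
    · have c1 : (C P * φ * X ^ d).natDegree ≤ 2 * d := by
        refine natDegree_mul_le.trans ?_
        have := natDegree_C_mul_le P φ
        rw [natDegree_X_pow]
        omega
      have c2 : (C v⁻¹ * φ * φ.reverse).natDegree ≤ 2 * d := by
        refine natDegree_mul_le.trans ?_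
        have := natDegree_C_mul_le v⁻¹ φ
        omega
      refine (natDegree_sub_le _ _).trans (max_le ((natDegree_add_le _ _).trans (max_le c2 ?_)) c1)
      refine (natDegree_C_mul_le _ _).trans ?_
      rw [natDegree_X_pow]; omega
  have e1 := congrArg (fun Q => eval 0 Q) key
  simp only [eval_mul, eval_add, eval_sub, eval_C, eval_pow, eval_X, Pk_eval, zero_mul,
    zero_pow (show d ≠ 0 by omega), mul_zero, pow_one, sub_zero, add_zero] at e1
  rw [← coeff_zero_eq_eval_zero φ.reverse, coeff_zero_reverse, sum_univ_UU, mul_inv_cancel₀ hu,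
    ← mul_sum, ← hvv] at e1
  have e2 : ∑ x ∈ UU F, (φ.eval x)⁻¹ = -1 := by
    have a2 := sum_UU_pow (F := F) (Fintype.card F - 2) (by omega) (by omega)
    rw [← image_UU _ h, sum_image (injOn_UU _ h)] at a2
    rw [← a2]
    refine sum_congr rfl (fun x hx => ?_)
    have b1 := (mem_UU x).1 hx
    have b2 := (h.1 x b1.1 b1.2).1
    have b3 := FiniteField.pow_card_sub_one_eq_one _ b2
    rw [show Fintype.card F - 1 = (Fintype.card F - 2) + 1 by omega, pow_succ] at b3
    exact (eq_inv_of_mul_eq_one_left b3).symm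
  rw [e2] at e1
  have e3 : v * φ.leadingCoeff = 0 := by linear_combination e1 + φ.leadingCoeff * k1
  exact mul_ne_zero hv (leadingCoeff_ne_zero.2 hφ0) e3

lemma not_fix (φ : F[X]) (h : Sid (fun x => φ.eval x))
    (hd : 2 * φ.natDegree + 3 < Fintype.card F) (h0 : φ.eval 0 = 0) (h1 : φ.eval 1 = 1) :
    False := by
  have hφ0 : φ ≠ 0 := by rintro rfl; simp at h1
  have hd1 : 1 ≤ φ.natDegree := by
    by_contra hc
    rw [eq_C_of_natDegree_le_zero (p := φ) (by omega)] at h0 h1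
    simp only [eval_C] at h0 h1
    rw [h0] at h1
    exact zero_ne_one h1
  set d := φ.natDegree with hdd
  set P := ∏ y ∈ UU F, y
  have hrev := reverse_natDegree_le φ
  have key : Pk φ (univ.erase 0) 1 * φ.reverse =
      -φ.reverse - C P * φ * X ^ d + φ * φ.reverse + X ^ d := by
    apply poly_id _ _ (2 * d) _ _ hd
    · intro a ha0 ha1 ha2
      obtain ⟨g, hg1, hg2, -⟩ := missing _ h a ha0 ha1 ha2
      have b1 := hg2 1 le_rfl (by omega)
      have hai : a⁻¹ ∈ UU F := (mem_UU _).2 ⟨inv_ne_zero ha0, fun hh => ha1 (inv_eq_one.1 hh)⟩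
      have b2 : univ.erase (0 : F) = insert 1 (UU F) := by
        ext x
        simp only [mem_erase, mem_univ, and_true, mem_insert, mem_UU]
        by_cases hx : x = 1
        · simp [hx]
        · simp [hx]
      have b3 := ((mem_UU _).1 hai)
      have b4 := (h.1 _ b3.1 b3.2).1
      simp only [eval_mul, eval_add, eval_sub, eval_neg, eval_C, eval_pow, eval_X, Pk_eval,
        eval_rev φ a ha0]
      rw [b2, sum_insert (by simp [mem_UU]), ← add_sum_erase _ _ hai, b1, mul_one,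
        mul_inv_cancel₀ ha0, h1, ← hdd]
      simp only at b4 hg1
      have b5 := inv_mul_cancel₀ b4
      simp only [pow_one, inv_one, mul_one, one_mul]
      linear_combination a ^ d * b5 - a ^ d * hg1
    · refine natDegree_mul_le.trans ?_
      have := Pk_deg φ (univ.erase 0) 1
      omega
    · have c1 : (C P * φ * X ^ d).natDegree ≤ 2 * d := by
        refine natDegree_mul_le.trans ?_
        have := natDegree_C_mul_le P φ
        rw [natDegree_X_pow]
        omega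
      have c2 : (φ * φ.reverse).natDegree ≤ 2 * d := natDegree_mul_le.trans (by omega)
      refine (natDegree_add_le _ _).trans (max_le ((natDegree_add_le _ _).trans (max_le
        ((natDegree_sub_le _ _).trans (max_le ?_ c1)) c2)) ?_)
      · rw [natDegree_neg]; omega
      · rw [natDegree_X_pow]; omega
  have e1 := congrArg (fun Q => eval 0 Q) key
  simp only [eval_mul, eval_add, eval_sub, eval_neg, eval_C, eval_pow, eval_X, Pk_eval, zero_mul,
    h0, zero_pow (show d ≠ 0 by omega), mul_zero, pow_one, sum_const_zero, sub_zero, add_zero] at e1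
  rw [← coeff_zero_eq_eval_zero, coeff_zero_reverse] at e1
  exact hφ0 (leadingCoeff_eq_zero.1 (neg_eq_zero.1 e1.symm))

lemma Pk_ident (φ : F[X]) (h : Sid (fun x => φ.eval x)) (h0 : φ.eval 0 = 1) (h1 : φ.eval 1 = 0)
    (k : ℕ) (hk : 1 ≤ k) (hd1 : 1 ≤ φ.natDegree)
    (hd : 2 * φ.natDegree * k + 3 < Fintype.card F) :
    Pk φ (univ.erase 1) k * φ.reverse ^ k =
      X ^ (φ.natDegree * k) * (-(C (∏ y ∈ UU F, y) * φ) ^ k) := by
  set d := φ.natDegree with hdd
  set P := ∏ y ∈ UU F, y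
  have hrev := reverse_natDegree_le φ
  have e0 : 2 * d * k = 2 * (d * k) := by ring
  have e1 : k * d = d * k := by ring
  have e2 : k ≤ d * k := Nat.le_mul_of_pos_left _ hd1
  apply poly_id _ _ (2 * d * k) _ _ hd
  · intro a ha0 ha1 ha2
    obtain ⟨g, hg1, hg2, -⟩ := missing _ h a ha0 ha1 ha2
    have b1 := hg2 k hk (by omega)
    have hai : a⁻¹ ∈ UU F := (mem_UU _).2 ⟨inv_ne_zero ha0, fun hh => ha1 (inv_eq_one.1 hh)⟩
    simp only [eval_mul, eval_neg, eval_C, eval_pow, eval_X, Pk_eval, eval_rev φ a ha0]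
    rw [← add_sum_erase _ _ (show (0 : F) ∈ univ.erase 1 by simp)]
    change (_ + ∑ x ∈ UU F, _) * _ = _
    rw [← add_sum_erase _ _ hai, b1, mul_zero, mul_inv_cancel₀ ha0, h0, h1, ← hdd]
    rw [← hg1]
    simp only [inv_one, mul_one, one_pow, zero_mul, zero_pow (show k ≠ 0 by omega), mul_pow, pow_mul]
    ring
  · refine natDegree_mul_le.trans ?_
    have := Pk_deg φ (univ.erase 1) k
    rw [← hdd] at this
    have : (φ.reverse ^ k).natDegree ≤ k * d := natDegree_pow_le.trans (Nat.mul_le_mul_left _ hrev)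
    omega
  · refine natDegree_mul_le.trans ?_
    rw [natDegree_X_pow, natDegree_neg]
    have : ((C P * φ) ^ k).natDegree ≤ k * d :=
      natDegree_pow_le.trans (Nat.mul_le_mul_left _ (natDegree_C_mul_le _ _))
    omega

lemma vanish (φ : F[X]) (h : Sid (fun x => φ.eval x)) (h0 : φ.eval 0 = 1) (h1 : φ.eval 1 = 0)
    (hd1 : 1 ≤ φ.natDegree) (k : ℕ) (hk : 1 ≤ k)
    (hd : 2 * φ.natDegree * k + 3 < Fintype.card F) (j : ℕ) (hj : j < φ.natDegree * k) :
    (φ ^ k).coeff j * lam φ j k = 0 := by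
  have hφ0 : φ ≠ 0 := by rintro rfl; simp at hd1
  have key := Pk_ident φ h h0 h1 k hk hd1 hd
  have cop : IsCoprime ((X : F[X]) ^ (φ.natDegree * k)) (φ.reverse ^ k) := by
    apply IsCoprime.pow
    rw [irreducible_X.coprime_iff_not_dvd, X_dvd_iff, coeff_zero_reverse]
    exact leadingCoeff_ne_zero.2 hφ0
  have hdv : (X : F[X]) ^ (φ.natDegree * k) ∣ Pk φ (univ.erase 1) k :=
    cop.dvd_of_dvd_mul_right ⟨_, key⟩
  have := X_pow_dvd_iff.1 hdv j hj
  rw [Pk_coeff _ _ _ _ (by rw [mul_comm]; omega)] at this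
  exact this

/-- normal form: `φ(0) = 1`, `φ(1) = 0` -/
lemma normal (φ : F[X]) (h : Sid (fun x => φ.eval x))
    (hd : 2 * φ.natDegree + 3 < Fintype.card F) : φ.eval 0 = 1 ∧ φ.eval 1 = 0 :=
  (ends φ h hd).resolve_left (fun hh => not_fix φ h hd hh.1 hh.2)

lemma prod_UU : ∏ y ∈ UU F, y = -1 := by
  have h1 := FiniteField.prod_univ_units_id_eq_neg_one (K := F)
  have h2 := congrArg (Units.coeHom F) h1
  rw [map_prod] at h2
  simp only [Units.coeHom_apply, Units.val_neg, Units.val_one] at h2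
  have h3 : ∏ x : Fˣ, (x : F) = ∏ y ∈ univ.erase (0 : F), y := by
    refine prod_bij (fun x _ => (x : F)) ?_ ?_ ?_ ?_
    · intro x _; simp
    · intro x _ y _ hxy; exact Units.ext hxy
    · intro y hy; exact ⟨Units.mk0 y (mem_erase.1 hy).1, mem_univ _, rfl⟩
    · intro x _; rfl
  rw [h3, ← mul_prod_erase _ _ (show (1 : F) ∈ univ.erase 0 by simp), one_mul,
    erase_right_comm] at h2
  exact h2

lemma anti (φ : F[X]) (h : Sid (fun x => φ.eval x))
    (hd : 2 * φ.natDegree + 3 < Fintype.card F) (a : F) (ha : a ≠ 0) :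
    φ.eval a = -(a ^ φ.natDegree * φ.eval a⁻¹) := by
  obtain ⟨h0, h1⟩ := normal φ h hd
  have hd1 := deg_pos φ h (by omega)
  have hφ0 : φ ≠ 0 := by rintro rfl; simp at hd1
  have key := Pk_ident φ h h0 h1 1 le_rfl hd1 (by omega)
  rw [prod_UU, mul_one, pow_one, pow_one] at key
  have cop : IsCoprime ((X : F[X]) ^ φ.natDegree) φ.reverse := by
    apply IsCoprime.pow_left
    rw [irreducible_X.coprime_iff_not_dvd, X_dvd_iff, coeff_zero_reverse]
    exact leadingCoeff_ne_zero.2 hφ0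
  obtain ⟨Q, hQ⟩ : (X : F[X]) ^ φ.natDegree ∣ Pk φ (univ.erase 1) 1 :=
    cop.dvd_of_dvd_mul_right ⟨_, key⟩
  rw [hQ, mul_assoc] at key
  have k2 := mul_left_cancel₀ (pow_ne_zero _ X_ne_zero) key
  have hQ0 : Q ≠ 0 := by
    rintro rfl
    rw [zero_mul] at k2
    have := congrArg (fun Q => eval 0 Q) k2
    simp [h0] at this
  have hQd : Q.natDegree ≤ 0 := by
    have := Pk_deg φ (univ.erase 1) 1
    rw [hQ, natDegree_mul (pow_ne_zero _ X_ne_zero) hQ0, natDegree_X_pow] at this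
    omega
  rw [eq_C_of_natDegree_le_zero hQd] at k2
  set c := Q.coeff 0
  have k3 : ∀ b : F, b ≠ 0 → φ.eval b = c * (b ^ φ.natDegree * φ.eval b⁻¹) := by
    intro b hb
    have := congrArg (fun Q => eval b Q) k2
    simp only [eval_mul, eval_C, eval_neg, eval_rev φ b hb] at this
    linear_combination -this
  have hne : ∀ x : F, x ≠ 1 → φ.eval x ≠ 0 := by
    intro x hx
    by_cases hx0 : x = 0
    · rw [hx0, h0]; exact one_ne_zero
    · exact (h.1 x hx0 hx).1
  have hc2 : c * c = 1 := by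
    have h3 := card_UU (F := F)
    obtain ⟨x, hx⟩ := card_pos.1 (show 0 < (UU F).card by omega)
    obtain ⟨x0, x1⟩ := (mem_UU x).1 hx
    have b1 := k3 x x0
    have b2 := k3 x⁻¹ (inv_ne_zero x0)
    rw [inv_inv] at b2
    have b3 : x ^ φ.natDegree * x⁻¹ ^ φ.natDegree = 1 := by
      rw [← mul_pow, mul_inv_cancel₀ x0, one_pow]
    apply mul_right_cancel₀ (hne x x1)
    linear_combination -b1 - c * x ^ φ.natDegree * b2 - c * c * φ.eval x * b3
  by_cases hc : c = -1
  · rw [k3 a ha, hc]; ring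
  exfalso
  have hc1 : c = 1 := (mul_self_eq_one_iff.1 hc2).resolve_right hc
  have hm : (-1 : F) ≠ 1 := fun hh => hc (by rw [hc1, hh])
  have hev : (-1 : F) ^ φ.natDegree = 1 := by
    have b1 := k3 (-1) (by simp)
    rw [hc1, inv_neg, inv_one] at b1
    apply mul_right_cancel₀ (hne _ hm)
    linear_combination -b1
  have hd2 : 2 ≤ φ.natDegree := by
    by_contra hh
    rw [show φ.natDegree = 1 by omega, pow_one] at hev
    exact hm hev
  obtain ⟨x, x0, x4⟩ : ∃ x : F, x ≠ 0 ∧ x ^ 4 ≠ 1 := by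
    by_contra hh
    push Not at hh
    have b1 : (X ^ 4 - 1 : F[X]) = 0 := by
      apply eq_zero_of_natDegree_lt_card_of_eval_eq_zero' _ (univ.erase 0)
      · intro x hx
        simp [hh x (mem_erase.1 hx).1]
      · rw [← C_1, natDegree_X_pow_sub_C, card_erase_of_mem (mem_univ _), card_univ]
        omega
    have := congrArg (fun Q => eval 0 Q) b1
    simp at this
  have e1 : x ^ 2 * x⁻¹ = x := by field_simp
  have e2 : x ^ 2 * (-x)⁻¹ = -x := by field_simp
  have x1 : x ≠ 1 := by rintro rfl; simp at x4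
  have x2 : -x ≠ 1 := by
    intro hh
    apply x4
    rw [show x ^ 4 = (-x) ^ 4 by ring, hh, one_pow]
  have := h.2.2 (x ^ 2) x⁻¹ (-x)⁻¹ (pow_ne_zero _ x0)
    (fun hh => x4 (by rw [show x ^ 4 = (x ^ 2) ^ 2 by ring, hh]; ring))
    (fun hh => x4 (by rw [show x ^ 4 = (x ^ 2) ^ 2 by ring, hh]; ring))
    (inv_ne_zero x0) (fun hh => x1 (inv_eq_one.1 hh)) (inv_ne_zero (neg_ne_zero.2 x0))
    (fun hh => x2 (inv_eq_one.1 hh)) (by rw [e1]; exact x1) (by rw [e2]; exact x2)
    (by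
      simp only [e1, e2]
      rw [k3 x x0, k3 (-x) (neg_ne_zero.2 x0), neg_pow x, hev]
      ring)
  have b5 := inv_injective this
  apply hm
  apply mul_right_cancel₀ x0
  linear_combination -b5

/-- the third direction: `x ↦ x^d / φ(x)` is injective, and `a ↦ a^d` has trivial kernel -/
lemma third (φ : F[X]) (h : Sid (fun x => φ.eval x))
    (hd : 2 * φ.natDegree + 3 < Fintype.card F) :
    (∀ a : F, a ^ φ.natDegree = 1 → a = 1) ∧
    ∀ x y : F, x ≠ 0 → x ≠ 1 → y ≠ 0 → y ≠ 1 →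
      x ^ φ.natDegree * φ.eval y = y ^ φ.natDegree * φ.eval x → x = y := by
  have hd1 := deg_pos φ h (by omega)
  have hg : ∀ a : F, a ≠ 0 → a ≠ 1 → a ≠ -1 → a ^ φ.natDegree ≠ 1 ∧
      ∀ x ∈ (UU F).erase a⁻¹, φ.eval (a * x) * (φ.eval x)⁻¹ ≠ a ^ φ.natDegree := by
    intro a ha0 ha1 ha2
    obtain ⟨g, hg1, -, hg3, hg4⟩ := missing _ h a ha0 ha1 ha2
    have b4 := (h.1 _ (inv_ne_zero ha0) (fun hh => ha1 (inv_eq_one.1 hh))).1
    have : g = a ^ φ.natDegree := by
      apply mul_right_cancel₀ b4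
      simp only at hg1 ⊢
      rw [hg1, prod_UU, anti φ h hd a ha0]
      ring
    rw [← this]
    exact ⟨hg3, hg4⟩
  have hodd : (-1 : F) ≠ 1 → (-1 : F) ^ φ.natDegree = -1 := by
    intro hm
    have b1 := anti φ h hd (-1) (by simp)
    rw [inv_neg, inv_one] at b1
    apply mul_right_cancel₀ (h.1 (-1) (by simp) hm).1
    simp only
    linear_combination b1
  constructor
  · intro a ha
    by_contra ha1
    have ha0 : a ≠ 0 := by
      rintro rfl
      rw [zero_pow (by omega)] at ha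
      exact zero_ne_one ha
    by_cases ha2 : a = -1
    · subst ha2
      exact ha1 ((hodd ha1).symm.trans ha)
    · exact (hg a ha0 ha1 ha2).1 ha
  · intro x y x0 x1 y0 y1 hxy
    by_contra hne
    have cx := (h.1 x x0 x1).1
    have cy := (h.1 y y0 y1).1
    simp only at cx cy
    have ha0 : x / y ≠ 0 := div_ne_zero x0 y0
    have ha1 : x / y ≠ 1 := fun hh => hne ((div_eq_one_iff_eq y0).1 hh)
    have e1 : x / y * y = x := div_mul_cancel₀ _ y0
    by_cases ha2 : x / y = -1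
    · have hm : (-1 : F) ≠ 1 := ha2 ▸ ha1
      have e2 : x = -y := by rw [← e1, ha2]; ring
      have b1 := anti φ h hd x x0
      have b2 := anti φ h hd y y0
      have b3 : x ^ φ.natDegree = -y ^ φ.natDegree := by rw [e2, neg_pow, hodd hm]; ring
      have b4 : φ.eval x⁻¹ = φ.eval y⁻¹ := by
        apply mul_left_cancel₀ (mul_ne_zero (pow_ne_zero φ.natDegree x0) (pow_ne_zero φ.natDegree y0))
        linear_combination y ^ φ.natDegree * b1 - x ^ φ.natDegree * b2 + hxy
      exact hne (inv_injective (h.2.1 _ _ (inv_ne_zero x0) (fun hh => x1 (inv_eq_one.1 hh))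
        (inv_ne_zero y0) (fun hh => y1 (inv_eq_one.1 hh)) b4))
    · apply (hg _ ha0 ha1 ha2).2 y
      · refine mem_erase.2 ⟨fun hh => x1 ?_, (mem_UU y).2 ⟨y0, y1⟩⟩
        rw [← e1]
        nth_rewrite 2 [hh]
        exact mul_inv_cancel₀ ha0
      · rw [e1, div_pow]
        field_simp
        linear_combination -hxy

end Pool.Agent.MP_dcfa1b_co
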