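import Mathlib
import Pool.Agent.MP_dcfa1b_co.Core
import Pool.Agent.MP_dcfa1b_co.Sums

set_option autoImplicit false
open Polynomial Finset

namespace Pool.Agent.MP_dcfa1b_co

lemma mod_two (N x : ℕ) (hx : x < 2 * N) : (x % N = x ∧ x < N) ∨ (x % N + N = x ∧ N ≤ x) := by
  by_cases h : x < N
  · left; exact ⟨Nat.mod_eq_of_lt h, h⟩
  · right
    refine ⟨?_, by omega⟩
    rw [Nat.mod_eq_sub_mod (by omega), Nat.mod_eq_of_lt (by omega)]
    omega

lemma shift (N i j k l : ℕ) (hi : i < N) (hj : j < N) (hk : k < N) (hl : l < N)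
    (h : i + l ≡ k + j [MOD N]) (hne : ¬ (l = i ∧ k = j)) :
    ∃ s : ℕ, (((i + s) % N : ℕ) : ℤ) - (((j + s) % N : ℕ) : ℤ) =
      (((k + s) % N : ℕ) : ℤ) - (((l + s) % N : ℕ) : ℤ) := by
  have h1 := mod_two N (i + l) (by omega)
  have h2 := mod_two N (k + j) (by omega)
  unfold Nat.ModEq at h
  have key : ∀ y, y ≤ N → (i + l = k + j ∧ y = N ∨
      (i + l = k + j + N ∧ ((j < y ∧ y ≤ i ∧ (y ≤ k ∨ l < y)) ∨ (k < y ∧ y ≤ l ∧ (y ≤ j ∨ i < y)))) ∨
      (i + l + N = k + j ∧ ((i < y ∧ y ≤ j ∧ (y ≤ l ∨ k < y)) ∨ (l < y ∧ y ≤ k ∧ (y ≤ i ∨ j < y))))) →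
      ∃ s : ℕ, (((i + s) % N : ℕ) : ℤ) - (((j + s) % N : ℕ) : ℤ) =
        (((k + s) % N : ℕ) : ℤ) - (((l + s) % N : ℕ) : ℤ) := by
    intro y hy hc
    refine ⟨N - y, ?_⟩
    have a1 := mod_two N (i + (N - y)) (by omega)
    have a2 := mod_two N (j + (N - y)) (by omega)
    have a3 := mod_two N (k + (N - y)) (by omega)
    have a4 := mod_two N (l + (N - y)) (by omega)
    generalize (i + (N - y)) % N = b1 at *
    generalize (j + (N - y)) % N = b2 at *
    generalize (k + (N - y)) % N = b3 at *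
    generalize (l + (N - y)) % N = b4 at *
    clear h h1 h2 hne
    rcases hc with hc | ⟨hc, hc2 | hc2⟩ | ⟨hc, hc2 | hc2⟩ <;> omega
  have h3 : i + l = k + j ∨ i + l = k + j + N ∨ i + l + N = k + j := by omega
  clear h h1 h2
  rcases h3 with h3 | h3 | h3
  · exact key N le_rfl (Or.inl ⟨h3, rfl⟩)
  · rcases lt_trichotomy i l with c | c | c
    · exact key l (by omega) (Or.inr (Or.inl ⟨h3, by omega⟩))
    · rcases lt_trichotomy j k with c' | c' | c'
      · exact key k (by omega) (Or.inr (Or.inl ⟨h3, by omega⟩))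
      · omega
      · exact key j (by omega) (Or.inr (Or.inl ⟨h3, by omega⟩))
    · exact key i (by omega) (Or.inr (Or.inl ⟨h3, by omega⟩))
  · rcases lt_trichotomy j k with c | c | c
    · exact key k (by omega) (Or.inr (Or.inr ⟨h3, by omega⟩))
    · rcases lt_trichotomy i l with c' | c' | c'
      · exact key l (by omega) (Or.inr (Or.inr ⟨h3, by omega⟩))
      · omega
      · exact key i (by omega) (Or.inr (Or.inr ⟨h3, by omega⟩))
    · exact key j (by omega) (Or.inr (Or.inr ⟨h3, by omega⟩))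

variable {F : Type*} [Field F] [Fintype F] [DecidableEq F]

lemma exists_log (n : ℕ) (hq : Fintype.card F = n + 2) (α : F) (hα : orderOf α = n + 1)
    (x : F) (x0 : x ≠ 0) (x1 : x ≠ 1) : ∃ i : Fin n, α ^ ((i : ℕ) + 1) = x := by
  have hα0 : α ≠ 0 := by
    rintro rfl
    have := pow_orderOf_eq_one (0 : F)
    rw [hα] at this
    simp at this
  have h1 : (range (n + 1)).image (fun m => α ^ m) = univ.erase 0 := by
    apply eq_of_subset_of_card_le
    · intro y hy
      obtain ⟨m, -, rfl⟩ := mem_image.1 hy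
      simp [hα0]
    · rw [card_image_of_injOn, card_erase_of_mem (mem_univ _), card_univ, card_range]
      · omega
      · intro a ha b hb hab
        apply pow_injOn_Iio_orderOf (x := α) _ _ hab
        · simpa [hα] using ha
        · simpa [hα] using hb
  have h2 : x ∈ (range (n + 1)).image (fun m => α ^ m) := by rw [h1]; simp [x0]
  obtain ⟨m, hm, rfl⟩ := mem_image.1 h2
  have hm' := mem_range.1 hm
  rcases m with _ | m
  · simp at x1
  · exact ⟨⟨m, by omega⟩, rfl⟩

lemma sid_of_shift (n : ℕ) (f : Equiv.Perm (Fin n))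
    (hS : ∀ s t : ℕ, ∀ i j k l : Fin n, i ≠ j → k ≠ l →
        (((((i : ℕ) + 1 + s) % (n + 1) : ℕ) : ℤ) - ((((j : ℕ) + 1 + s) % (n + 1) : ℕ) : ℤ)
            = ((((k : ℕ) + 1 + s) % (n + 1) : ℕ) : ℤ) - ((((l : ℕ) + 1 + s) % (n + 1) : ℕ) : ℤ) ∧
         ((((f i : ℕ) + 1 + t) % (n + 1) : ℕ) : ℤ) - ((((f j : ℕ) + 1 + t) % (n + 1) : ℕ) : ℤ)
            = ((((f k : ℕ) + 1 + t) % (n + 1) : ℕ) : ℤ) - ((((f l : ℕ) + 1 + t) % (n + 1) : ℕ) : ℤ)) →
        i = k ∧ j = l)
    (hq : Fintype.card F = n + 2) (α β : F) (hα : orderOf α = n + 1) (hβ : orderOf β = n + 1)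
    (φ : F → F) (hφ : ∀ i : Fin n, φ (α ^ ((i : ℕ) + 1)) = β ^ ((f i : ℕ) + 1)) : Sid φ := by
  have fα : IsOfFinOrder α := orderOf_pos_iff.1 (by omega)
  have fβ : IsOfFinOrder β := orderOf_pos_iff.1 (by omega)
  have hβ0 : β ≠ 0 := fβ.isUnit.ne_zero
  refine ⟨fun x x0 x1 => ?_, fun x y x0 x1 y0 y1 hxy => ?_,
    fun a x y a0 a1 a2 x0 x1 y0 y1 ax ay h => ?_⟩
  · obtain ⟨i, rfl⟩ := exists_log n hq α hα x x0 x1
    rw [hφ]
    refine ⟨pow_ne_zero _ hβ0, fun hh => ?_⟩
    have := Nat.le_of_dvd (by omega) (orderOf_dvd_of_pow_eq_one hh)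
    have := (f i).2
    omega
  · obtain ⟨i, rfl⟩ := exists_log n hq α hα x x0 x1
    obtain ⟨j, rfl⟩ := exists_log n hq α hα y y0 y1
    rw [hφ, hφ] at hxy
    have a1 := (f i).2
    have a2 := (f j).2
    have := pow_injOn_Iio_orderOf (x := β) (by simp only [Set.mem_Iio]; omega)
      (by simp only [Set.mem_Iio]; omega) hxy
    have : f i = f j := Fin.ext (by omega)
    rw [f.injective this]
  · obtain ⟨j, hj⟩ := exists_log n hq α hα x x0 x1
    obtain ⟨l, hl⟩ := exists_log n hq α hα y y0 y1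
    obtain ⟨i, hi⟩ := exists_log n hq α hα (a * x) (mul_ne_zero a0 x0) ax
    obtain ⟨k, hk⟩ := exists_log n hq α hα (a * y) (mul_ne_zero a0 y0) ay
    have hij : i ≠ j := by
      rintro rfl
      exact a1 (mul_right_cancel₀ x0 (by rw [← hi, hj, one_mul]))
    have hkl : k ≠ l := by
      rintro rfl
      exact a1 (mul_right_cancel₀ y0 (by rw [← hk, hl, one_mul]))
    have hex : ¬ (l = i ∧ k = j) := by
      rintro ⟨rfl, rfl⟩
      have b1 : a * a = 1 := by
        apply mul_right_cancel₀ x0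
        rw [mul_assoc, ← hi, hl, ← hk, hj, one_mul]
      rcases mul_self_eq_one_iff.1 b1 with b | b
      · exact a1 b
      · exact a2 b
    have m1 : ((i : ℕ) + 1) + ((l : ℕ) + 1) ≡ ((k : ℕ) + 1) + ((j : ℕ) + 1) [MOD n + 1] := by
      rw [← hα, ← fα.pow_eq_pow_iff_modEq, pow_add α (i + 1), pow_add α (k + 1), hi, hl, hk, hj]
      ring
    have m2 : ((f i : ℕ) + 1) + ((f l : ℕ) + 1) ≡ ((f k : ℕ) + 1) + ((f j : ℕ) + 1) [MOD n + 1] := by
      rw [← hβ, ← fβ.pow_eq_pow_iff_modEq, pow_add β (f i + 1), pow_add β (f k + 1), ← hφ, ← hφ,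
        ← hφ, ← hφ, hi, hl, hk, hj]
      exact h
    obtain ⟨s, hs⟩ := shift (n + 1) _ _ _ _ (by omega) (by omega) (by omega) (by omega) m1
      (fun hh => hex ⟨Fin.ext (by omega), Fin.ext (by omega)⟩)
    obtain ⟨t, ht⟩ := shift (n + 1) _ _ _ _ (by omega) (by omega) (by omega) (by omega) m2
      (fun hh => hex ⟨f.injective (Fin.ext (by omega)), f.injective (Fin.ext (by omega))⟩)
    have := (hS s t i j k l hij hkl ⟨hs, ht⟩).2
    rw [← hj, ← hl, this]

lemma inj_all (φ : F[X]) (h : Sid (fun x => φ.eval x)) (h0 : φ.eval 0 = 1) (h1 : φ.eval 1 = 0) :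
    Function.Injective (fun x => φ.eval x) := by
  intro x y hxy
  simp only at hxy
  by_cases x0 : x = 0 <;> by_cases x1 : x = 1 <;> by_cases y0 : y = 0 <;> by_cases y1 : y = 1 <;>
    first
    | exact h.2.1 x y x0 x1 y0 y1 hxy
    | (have := h.1 y y0 y1; simp_all)
    | (have := h.1 x x0 x1; simp_all)
    | simp_all

lemma golomb (n : ℕ) (f : Equiv.Perm (Fin n)) (β : F) (hβ : orderOf β = n + 1)
    (hsid : ∀ (α : F) (φ : F → F), orderOf α = n + 1 →
      (∀ i : Fin n, φ (α ^ ((i : ℕ) + 1)) = β ^ ((f i : ℕ) + 1)) → Sid φ) (d : ℕ) :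
    ∀ (α : F) (φ : F[X]), φ.natDegree = d → orderOf α = n + 1 → 16 * d ^ 6 + 3 < ringChar F →
      (∀ i : Fin n, φ.eval (α ^ ((i : ℕ) + 1)) = β ^ ((f i : ℕ) + 1)) →
      ∃ α' β' : F, orderOf α' = n + 1 ∧ orderOf β' = n + 1 ∧
        ∀ i : Fin n, α' ^ ((i : ℕ) + 1) + β' ^ ((f i : ℕ) + 1) = 1 := by
  induction d using Nat.strong_induction_on with
  | _ d ih =>
  intro α φ hd hα hbig hφ
  have h := hsid α (fun x => φ.eval x) hα hφ
  obtain ⟨m, hp, hm⟩ := FiniteField.card F (ringChar F)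
  have hpq : ringChar F ≤ Fintype.card F := by
    rw [hm]
    exact Nat.le_self_pow m.ne_zero _
  have hd6 : d ≤ d ^ 6 := Nat.le_self_pow (by omega) d
  obtain ⟨h0, h1⟩ := normal φ h (by omega)
  have hd1 := deg_pos φ h (by omega)
  have hinj := inj_all φ h h0 h1
  by_cases hno : ∃ o, 1 < o ∧ ∀ i, φ.coeff i ≠ 0 → o ∣ i
  · obtain ⟨o, ho, hdiv⟩ := hno
    have e1 : expand F o (contract o φ) = φ := by
      ext i
      rw [coeff_expand (by omega), coeff_contract (by omega)]
      split_ifs with hi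
      · rw [Nat.div_mul_cancel hi]
      · by_contra hh
        exact hi (hdiv i (fun h => hh h.symm))
    have e2 : (contract o φ).natDegree * o = d := by rw [← natDegree_expand, e1, hd]
    have e3 : (contract o φ).natDegree < d := by
      rw [← e2]
      apply lt_mul_of_one_lt_right _ ho
      apply Nat.pos_of_ne_zero
      intro hh
      rw [hh] at e2
      omega
    have e4 : ∀ x : F, φ.eval x = (contract o φ).eval (x ^ o) := by
      intro x
      rw [← expand_eval, e1]
    refine ih _ e3 (α ^ o) (contract o φ) rfl ?_ ?_ ?_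
    · rw [← hα, orderOf_eq_orderOf_iff]
      intro k
      constructor
      · intro hk
        apply hinj
        simp only [e4]
        rw [pow_right_comm, hk, one_pow]
      · intro hk
        rw [pow_right_comm, hk, one_pow]
    · have := Nat.pow_le_pow_left e3.le 6
      omega
    · intro i
      rw [← hφ, e4, pow_right_comm]
  · have hne : ∀ x : F, x ≠ 1 → φ.eval x ≠ 0 := fun x hx hh => hx (hinj (hh.trans h1.symm))
    have hc := core φ d (ringChar F) hp hd (by omega) (by rw [coeff_zero_eq_eval_zero, h0]) h1 hne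
      hbig (fun k hk hk2 j hj => vanish φ h h0 h1 hd1 k hk (by rw [hd]; exact hk2) j
        (by rw [hd]; exact hj)) hno
    obtain ⟨e, -, u, hu⟩ := (dvd_prime_pow (prime_X_sub_C (1 : F)) _).1 hc
    obtain ⟨c, hc1, hc2⟩ := Polynomial.isUnit_iff.1 u.isUnit
    have e5 : ∀ x : F, φ.eval x = (1 - x) ^ e := by
      intro x
      have b1 := congrArg (fun Q => eval x Q) hu
      have b2 := congrArg (fun Q => eval 0 Q) hu
      simp only [← hc2, eval_mul, eval_C, eval_pow, eval_sub, eval_X, h0, one_mul] at b1 b2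
      apply mul_right_cancel₀ hc1.ne_zero
      rw [b1, b2, ← mul_pow]
      congr 1
      ring
    have hpe : Function.Injective (fun x : F => x ^ e) := by
      intro x y hxy
      have : (1 - x) = (1 - y) := by
        apply hinj
        simp only [e5, sub_sub_cancel]
        exact hxy
      linear_combination -this
    obtain ⟨β', hβ'⟩ := (Finite.injective_iff_surjective.1 hpe) β
    simp only at hβ'
    refine ⟨α, β', hα, ?_, fun i => ?_⟩
    · rw [← hβ, orderOf_eq_orderOf_iff]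
      intro k
      constructor
      · intro hk
        rw [← hβ', pow_right_comm, hk, one_pow]
      · intro hk
        apply hpe
        simp only
        rw [pow_right_comm, hβ', hk, one_pow]
    · have : 1 - α ^ ((i : ℕ) + 1) = β' ^ ((f i : ℕ) + 1) := by
        apply hpe
        simp only
        rw [← e5, hφ, pow_right_comm, hβ']
      linear_combination -this

end Pool.Agent.MP_dcfa1b_co
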